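import Pool.Agent.MMSA.SpecB

/-!
Inequalities (C) and (D) and the lower bound for the fraction of good sets, valid for `n ≥ 2k`.

PLAN. `K = k + 1`, `f S = ∑ i ∈ S, x i`, `F = |f|`, `s2 = av K (f^2)`, `tau = av K (f F)`,
`m = av K F`, `l2 = lv k V F`.
(C) `0 ≤ 4 E f⁺(S) f⁺(T)` over disjoint pairs of `K`-sets, `2 f⁺ = f + F`:
`0 ≤ E f(S) f(T) + 2 E f(S) F(T) + E F(S) F(T)`, where `av K (V \ S) f = - r f S`
(`mom1`), so the first two terms are `- r s2 - 2 r tau` (`av_disj_swap`), and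
`E F(S) F(T) = m^2 - r l2 + E g(S) g(T)` with `g` the rest of `F`,
`E g(S) g(T) ≤ ρ (s2 - m^2 - l2)` by Cauchy-Schwarz and `disj_level2` with `a = b + 1 = K`
(`rho2 K K n = ρ^2`), `rest_norm`.
(D) `av f = 0` gives `av f⁺ = m/2`; `(av f⁺)^2 = (av (f⁺ nn))^2 ≤ av nn * av (f⁺^2)` and
`av (f⁺^2) = (s2 + tau)/2`.
`lb_spec`: for `0 ≤ ∑ x` subtract the mean (`nn` only decreases). If `s2 = 0` all sums vanish and
everything is good (the bound is `≤ 1`). Otherwise eliminate `l2` and `tau` from (B), (C), (D):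
`l2 ≥ s2 - (2(n-1)/(n-2)) m^2`, so `2 r (s2 + tau) ≤ C m^2`, `C = 1 - ρ + (r+ρ) 2(n-1)/(n-2)`,
and `m^2 ≤ 2 g (s2 + tau)`; `m > 0` because `s2 > 0` ((B) and (C) give `m^2 > 0`).
-/

set_option autoImplicit false
set_option linter.unusedSectionVars false

namespace Pool.Agent.MMSA

open Finset Pool.Agent.H59.MMS

variable {α : Type*} [DecidableEq α]

/-- the average of a centred linear function over the sets disjoint from `S` -/
private theorem specc_lin {K : ℕ} {V : Finset α} (hn : 2 * K ≤ V.card) (hV : 1 ≤ V.card - K)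
    (c : α → ℝ) (hc : ∑ j ∈ V, c j = 0) {S : Finset α} (hS : S ⊆ V) (hSc : S.card = K) :
    av K (V \ S) (fun T => ∑ j ∈ T, c j) = -((K : ℝ) / (V.card - K)) * ∑ j ∈ S, c j := by
  have hcard : (V \ S).card = V.card - K := by rw [Finset.card_sdiff_of_subset hS, hSc]
  rw [mom1 (by omega) (by omega), hcard, Nat.cast_sub (by omega)]
  have h := Finset.sum_sdiff (f := c) hS
  rw [hc] at h
  have h2 : ∑ j ∈ V \ S, c j = -∑ j ∈ S, c j := by linarith
  rw [h2]
  ring

/-- products over disjoint pairs of a linear function and another function -/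
private theorem specc_pair {K : ℕ} {V : Finset α} (hn : 2 * K ≤ V.card) (hV : 1 ≤ V.card - K)
    (c : α → ℝ) (hc : ∑ j ∈ V, c j = 0) (u : Finset α → ℝ) :
    av K V (fun S => u S * av K (V \ S) (fun T => ∑ j ∈ T, c j)) =
      -((K : ℝ) / (V.card - K)) * av K V (fun S => u S * ∑ j ∈ S, c j) := by
  rw [← av_mul]
  refine av_congr fun S hS hSc => ?_
  rw [specc_lin hn hV c hc hS hSc]
  ring

/-- the products `F(S) F(T)` over disjoint pairs -/
private theorem specc_FF {k : ℕ} (V : Finset α) (F : Finset α → ℝ) (hk : k + 3 ≤ V.card)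
    (hn : 2 * (k + 1) ≤ V.card) {r ρ : ℝ}
    (hr : r = ((k : ℝ) + 1) / (V.card - (k + 1)))
    (hρ : ρ = ((k : ℝ) + 1) * k / ((V.card - (k + 1)) * (V.card - (k + 1) - 1))) :
    av (k + 1) V (fun S => F S * av (k + 1) (V \ S) F) ≤
      av (k + 1) V F ^ 2 - r * lv k V F +
        ρ * (av (k + 1) V (fun S => F S ^ 2) - av (k + 1) V F ^ 2 - lv k V F) := by
  have hkR : (0 : ℝ) ≤ k := Nat.cast_nonneg k
  have hnR : (k : ℝ) + 3 ≤ V.card := by exact_mod_cast hk
  have hKc : ((k + 1 : ℕ) : ℝ) = (k : ℝ) + 1 := by push_cast; ring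
  have hrK : -(((k + 1 : ℕ) : ℝ) / (V.card - ((k + 1 : ℕ) : ℝ))) = -r := by
    rw [hr, hKc]
  set q := av (k + 1) V F with hq
  set c := cf k V F with hc
  have hsc : ∑ j ∈ V, c j = 0 := sum_cf V F (by omega)
  set L : Finset α → ℝ := fun S => ∑ j ∈ S, c j with hL
  set g : Finset α → ℝ := fun S => F S - q - ∑ j ∈ S, c j with hg
  set G : Finset α → ℝ := fun S => av (k + 1) (V \ S) g with hG
  have hgn : av (k + 1) V (fun S => g S ^ 2) =
      av (k + 1) V (fun S => F S ^ 2) - q ^ 2 - lv k V F := rest_norm V F (by omega)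
  have havL : av (k + 1) V L = 0 := by
    rw [hL, mom1 (by omega) (by omega), hsc, mul_zero]
  have hFL : av (k + 1) V (fun S => F S * L S) = lv k V F := by
    have h := av_mul_lin V F (b := k) (by omega) c hsc
    rw [hL]
    simp only
    rw [h, lv]
    congr 1
    refine Finset.sum_congr rfl fun j _ => ?_
    rw [← hc]
    ring
  have hLL : av (k + 1) V (fun S => L S ^ 2) = lv k V F := by
    have h := mom2 (k := k + 1) (V := V) (by omega) (by omega) c
    rw [hsc] at h
    rw [hL]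
    simp only
    rw [h, lv, A2, ← hc]
    have h1 : (V.card : ℝ) ≠ 0 := by linarith
    have h2 : (V.card : ℝ) - 1 ≠ 0 := by linarith
    push_cast
    field_simp
    ring
  have hGsum : av (k + 1) V G = 0 := by
    have h := av_disj g (b := k + 1) (k + 1) V (by omega)
    rw [hG, h, hg]
    have e : av (k + 1) V (fun S => F S - q - ∑ j ∈ S, c j) =
        av (k + 1) V (fun S => F S - q) - av (k + 1) V L := av_sub _ _ _ _
    rw [e, av_sub, av_const (by omega), havL, ← hq]
    ring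
  have hgL : av (k + 1) V (fun S => g S * L S) = 0 := by
    have e : ∀ S, g S * L S = F S * L S - q * L S - L S ^ 2 := by
      intro S
      simp only [hg, hL]
      ring
    simp only [e]
    rw [av_sub, av_sub, av_mul, hFL, havL, hLL]
    ring
  have hLG : av (k + 1) V (fun S => L S * G S) = 0 := by
    rw [hG, av_disj_swap (k + 1) (k + 1) V L g (by omega)]
    have h := specc_pair (K := k + 1) hn (by omega) c hsc g
    rw [hL] at hgL ⊢
    rw [h, hgL, mul_zero]
  have hGG : av (k + 1) V (fun S => G S ^ 2) ≤ ρ ^ 2 * av (k + 1) V (fun S => g S ^ 2) := by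
    have h := disj_level2 (a := k + 1) (b := k) V g (by omega) (by omega) (by omega) hk
      (fun i hi => rest_level V F (by omega) i hi)
    have e : rho2 ((k + 1 : ℕ) : ℝ) (k + 1) V.card = ρ ^ 2 := by
      rw [rho2, hρ, hKc]
      have h1 : (V.card : ℝ) - (k + 1) ≠ 0 := by linarith
      have h2 : (V.card : ℝ) - (k + 1) - 1 ≠ 0 := by linarith
      field_simp
      ring
    rw [e] at h
    exact h
  have hρ0 : 0 ≤ ρ := by
    rw [hρ]
    have h1 : 0 < (V.card : ℝ) - (k + 1) := by linarith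
    have h2 : 0 < (V.card : ℝ) - (k + 1) - 1 := by linarith
    positivity
  have hg0 : 0 ≤ av (k + 1) V (fun S => g S ^ 2) := av_nonneg fun S _ _ => sq_nonneg _
  have hgG : av (k + 1) V (fun S => g S * G S) ≤ ρ * av (k + 1) V (fun S => g S ^ 2) := by
    have h1 := av_cs (k + 1) V g G
    have h2 : (av (k + 1) V (fun S => g S * G S)) ^ 2 ≤
        (ρ * av (k + 1) V (fun S => g S ^ 2)) ^ 2 := by
      refine h1.trans ?_
      have h3 := mul_le_mul_of_nonneg_left hGG hg0
      refine h3.trans (le_of_eq ?_)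
      ring
    exact (abs_le_of_sq_le_sq' h2 (mul_nonneg hρ0 hg0)).2
  -- the expansion
  have hexp : ∀ S, S ⊆ V → S.card = k + 1 → F S * av (k + 1) (V \ S) F =
      q * F S - r * (F S * L S) + (q * G S + L S * G S + g S * G S) := by
    intro S hS hSc
    have hcard : (V \ S).card = V.card - (k + 1) := by rw [Finset.card_sdiff_of_subset hS, hSc]
    have h1 : av (k + 1) (V \ S) F = q - r * L S + G S := by
      have e1 : G S = av (k + 1) (V \ S) (fun T => F T - q) -
          av (k + 1) (V \ S) (fun T => ∑ j ∈ T, c j) := by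
        rw [hG, hg]
        simp only
        exact av_sub _ _ _ _
      rw [e1, av_sub, av_const (by omega), specc_lin hn (by omega) c hsc hS hSc, hrK]
      simp only [hL]
      ring
    have h2 : F S = q + L S + g S := by
      simp only [hL, hg]
      ring
    rw [h1]
    have h3 : F S * G S = q * G S + L S * G S + g S * G S := by
      rw [h2]
      ring
    rw [← h3]
    ring
  rw [av_congr hexp, av_add, av_sub, av_mul, av_mul, av_add, av_add, av_mul, hGsum, hFL, hLG, ← hq]
  rw [← hgn]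
  linarith

/-- (C) -/
theorem ineqC {k : ℕ} (V : Finset α) (x : α → ℝ) (hk : k + 3 ≤ V.card)
    (hn : 2 * (k + 1) ≤ V.card) (hx : ∑ j ∈ V, x j = 0) {r ρ : ℝ}
    (hr : r = ((k : ℝ) + 1) / (V.card - (k + 1)))
    (hρ : ρ = ((k : ℝ) + 1) * k / ((V.card - (k + 1)) * (V.card - (k + 1) - 1))) :
    (r - ρ) * av (k + 1) V (fun S => (∑ i ∈ S, x i) ^ 2) +
      2 * r * av (k + 1) V (fun S => (∑ i ∈ S, x i) * ab x S) + (r + ρ) * lv k V (ab x) ≤
      (1 - ρ) * (av (k + 1) V (ab x)) ^ 2 := by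
  have hKc : ((k + 1 : ℕ) : ℝ) = (k : ℝ) + 1 := by push_cast; ring
  have hrK : -(((k + 1 : ℕ) : ℝ) / (V.card - ((k + 1 : ℕ) : ℝ))) = -r := by
    rw [hr, hKc]
  set f : Finset α → ℝ := fun S => ∑ i ∈ S, x i with hf
  have hFF := specc_FF V (ab x) hk hn hr hρ
  have h0 : 0 ≤ av (k + 1) V (fun S => (f S + ab x S) *
      av (k + 1) (V \ S) (fun T => f T + ab x T)) := by
    have hnon : ∀ S : Finset α, 0 ≤ f S + ab x S := by
      intro S
      simp only [hf, ab]
      linarith [neg_abs_le (∑ i ∈ S, x i)]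
    exact av_nonneg fun S _ _ => mul_nonneg (hnon S) (av_nonneg fun T _ _ => hnon T)
  have hexp : ∀ S, S ⊆ V → S.card = k + 1 → (f S + ab x S) *
      av (k + 1) (V \ S) (fun T => f T + ab x T) =
      (f S * av (k + 1) (V \ S) f + ab x S * av (k + 1) (V \ S) f) +
        (f S * av (k + 1) (V \ S) (ab x) + ab x S * av (k + 1) (V \ S) (ab x)) := by
    intro S _ _
    rw [av_add]
    ring
  have hff : av (k + 1) V (fun S => f S * av (k + 1) (V \ S) f) =
      -r * av (k + 1) V (fun S => f S ^ 2) := by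
    have h := specc_pair (K := k + 1) hn (by omega) x hx f
    rw [hrK] at h
    rw [hf] at h ⊢
    rw [h]
    congr 1
    exact av_congr fun S _ _ => (sq _).symm
  have hFf : av (k + 1) V (fun S => ab x S * av (k + 1) (V \ S) f) =
      -r * av (k + 1) V (fun S => f S * ab x S) := by
    have h := specc_pair (K := k + 1) hn (by omega) x hx (ab x)
    rw [hrK] at h
    rw [hf]
    rw [h]
    congr 1
    exact av_congr fun S _ _ => mul_comm _ _
  have hfF : av (k + 1) V (fun S => f S * av (k + 1) (V \ S) (ab x)) =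
      -r * av (k + 1) V (fun S => f S * ab x S) := by
    rw [av_disj_swap (k + 1) (k + 1) V f (ab x) (by omega)]
    exact hFf
  rw [av_congr hexp, av_add, av_add, av_add, hff, hFf, hfF] at h0
  have hsq : av (k + 1) V (fun S => ab x S ^ 2) = av (k + 1) V (fun S => f S ^ 2) :=
    av_congr fun S _ _ => by rw [ab, sq_abs]
  rw [hsq] at hFF
  have e1 : av (k + 1) V (fun S => (∑ i ∈ S, x i) ^ 2) = av (k + 1) V (fun S => f S ^ 2) := rfl
  have e2 : av (k + 1) V (fun S => (∑ i ∈ S, x i) * ab x S) =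
      av (k + 1) V (fun S => f S * ab x S) := rfl
  rw [e1, e2]
  nlinarith [h0, hFF]

/-- (D) -/
theorem ineqD {k : ℕ} (V : Finset α) (x : α → ℝ) (hk : k + 1 ≤ V.card) (hx : ∑ j ∈ V, x j = 0) :
    (av (k + 1) V (ab x)) ^ 2 ≤ 2 * av (k + 1) V (nn x) *
      (av (k + 1) V (fun S => (∑ i ∈ S, x i) ^ 2) +
        av (k + 1) V (fun S => (∑ i ∈ S, x i) * ab x S)) := by
  have h1 := av_cs (k + 1) V (fun S => (∑ i ∈ S, x i) + ab x S) (nn x)
  have h2 : av (k + 1) V (fun S => ((∑ i ∈ S, x i) + ab x S) * nn x S) =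
      av (k + 1) V (ab x) := by
    rw [av_congr (G := fun S => (∑ i ∈ S, x i) + ab x S), av_add,
      mom1 (by omega) (by omega), hx, mul_zero, zero_add]
    intro S _ _
    unfold nn
    split_ifs with h
    · rw [mul_one]
    · rw [mul_zero, ab, abs_of_neg (not_le.1 h)]
      ring
  have h3 : av (k + 1) V (fun S => ((∑ i ∈ S, x i) + ab x S) ^ 2) =
      2 * (av (k + 1) V (fun S => (∑ i ∈ S, x i) ^ 2) +
        av (k + 1) V (fun S => (∑ i ∈ S, x i) * ab x S)) := by
    rw [← av_add, ← av_mul]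
    refine av_congr fun S _ _ => ?_
    have h4 : ab x S ^ 2 = (∑ i ∈ S, x i) ^ 2 := by rw [ab, sq_abs]
    linear_combination h4
  have h4 : av (k + 1) V (fun S => nn x S ^ 2) = av (k + 1) V (nn x) :=
    av_congr fun S _ _ => nn_sq x S
  rw [h2, h3, h4] at h1
  linarith

/-- The fraction of good sets is at least `r / (1 - ρ + (r + ρ) * 2 (n-1) / (n-2))`. -/
theorem lb_spec {k n : ℕ} (hk3 : k + 3 ≤ n) (hn : 2 * (k + 1) ≤ n) {r ρ : ℝ}
    (hr : r = ((k : ℝ) + 1) / (n - (k + 1)))
    (hρ : ρ = ((k : ℝ) + 1) * k / ((n - (k + 1)) * (n - (k + 1) - 1))) :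
    LB α (k + 1) n (r / (1 - ρ + (r + ρ) * (2 * (n - 1) / (n - 2)))) := by
  have hkR : (0 : ℝ) ≤ k := Nat.cast_nonneg k
  have hnR : (k : ℝ) + 3 ≤ n := by exact_mod_cast hk3
  have h1 : 0 < (n : ℝ) - (k + 1) := by linarith
  have h2 : 0 < (n : ℝ) - (k + 1) - 1 := by linarith
  have hρ0 : 0 ≤ ρ := by
    rw [hρ]
    positivity
  have hr0 : 0 < r := by
    rw [hr]
    positivity
  set e : ℝ := 2 * (n - 1) / (n - 2) with he
  have hn2 : 0 < (n : ℝ) - 2 := by linarith
  have he2 : 2 ≤ e := by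
    rw [he, le_div_iff₀ hn2]
    linarith
  have hC : r ≤ 1 - ρ + (r + ρ) * e := by nlinarith
  have hC0 : 0 < 1 - ρ + (r + ρ) * e := hr0.trans_le hC
  refine LB.of_normalized (by omega) (by omega) ((div_le_one hC0).2 hC) ?_
  intro V x hV hx _
  have hB := ineqB (k := k) V x (by omega) hx
  have hCC := ineqC (k := k) V x (by omega) (by omega) hx (r := r) (ρ := ρ) (by rw [hV]; exact hr)
    (by rw [hV]; exact hρ)
  have hD := ineqD (k := k) V x (by omega) hx
  rw [hV] at hB
  have hg0 : 0 ≤ av (k + 1) V (nn x) := av_nonneg fun S _ _ => nn_nonneg x S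
  set s2 := av (k + 1) V (fun S => (∑ i ∈ S, x i) ^ 2) with hs2
  set tau := av (k + 1) V (fun S => (∑ i ∈ S, x i) * ab x S) with htau
  set m := av (k + 1) V (ab x) with hm
  set l2 := lv k V (ab x) with hl2
  set g := av (k + 1) V (nn x) with hg
  have hB' : s2 - l2 ≤ e * m ^ 2 := by
    have h3 : s2 - l2 ≤ 2 * ((n : ℝ) - 1) * m ^ 2 / (n - 2) := by
      rw [le_div_iff₀ hn2]
      linarith
    refine h3.trans (le_of_eq ?_)
    rw [he]
    ring
  have hkey : 2 * r * (s2 + tau) ≤ (1 - ρ + (r + ρ) * e) * m ^ 2 := by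
    have h3 := mul_le_mul_of_nonneg_left hB' (add_nonneg hr0.le hρ0)
    nlinarith
  rcases le_or_gt (s2 + tau) 0 with hle | hpos
  · -- everything vanishes
    have hm2 : m ^ 2 ≤ 0 := hD.trans (mul_nonpos_of_nonneg_of_nonpos (by positivity) hle)
    have hm0 : m = 0 := by nlinarith
    have hall : ∀ S ∈ V.powersetCard (k + 1), ab x S = 0 := by
      have hch : ((V.card.choose (k + 1) : ℕ) : ℝ) ≠ 0 := by
        exact_mod_cast (Nat.choose_pos (by omega : k + 1 ≤ V.card)).ne'
      have hsum : ∑ S ∈ V.powersetCard (k + 1), ab x S = 0 := by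
        have h3 := hm0
        rw [hm, av, div_eq_zero_iff] at h3
        exact h3.resolve_right hch
      exact (Finset.sum_eq_zero_iff_of_nonneg fun S _ => abs_nonneg _).1 hsum
    have hg1 : g = 1 := by
      rw [hg, av_congr (G := fun _ => (1 : ℝ)), av_const (by omega)]
      intro S hS hSc
      have h3 := hall S (Finset.mem_powersetCard.2 ⟨hS, hSc⟩)
      rw [ab, abs_eq_zero] at h3
      unfold nn
      rw [h3]
      simp
    rw [hg1]
    exact (div_le_one hC0).2 hC
  · rw [div_le_iff₀ hC0]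
    have h3 : (1 - ρ + (r + ρ) * e) * m ^ 2 ≤
        (1 - ρ + (r + ρ) * e) * (2 * g * (s2 + tau)) := mul_le_mul_of_nonneg_left hD hC0.le
    have h4 : r * (s2 + tau) ≤ (g * (1 - ρ + (r + ρ) * e)) * (s2 + tau) := by nlinarith
    exact le_of_mul_le_mul_right h4 hpos

end Pool.Agent.MMSA
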