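import Pool.Agent.H59.MMS.Cases

/-!
Analytic part of the Manickam-Miklos-Singhi proof: level-one coefficients of a function on the
`(b+1)`-element subsets of a finite set `M`, and the constants of the disjointness operator.
-/

set_option autoImplicit false
set_option linter.unusedSectionVars false

namespace Pool.Agent.MMSA

open Finset Pool.Agent.H59.MMS

variable {α : Type*} [DecidableEq α]

/-- Level-one coefficient of a function `h` on the `(b+1)`-subsets of `M` at the element `j`. -/
noncomputable def cf (b : ℕ) (M : Finset α) (h : Finset α → ℝ) (j : α) : ℝ :=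
  (((M.card : ℝ) - 1) / (M.card - (b + 1))) *
    (av b (M.erase j) (fun T => h (insert j T)) - av (b + 1) M h)

/-- Squared norm of the level-one part. -/
noncomputable def lv (b : ℕ) (M : Finset α) (h : Finset α → ℝ) : ℝ :=
  A2 (b + 1) M.card * ∑ j ∈ M, cf b M h j ^ 2

/-- Squared norm of the disjointness operator on level one. -/
noncomputable def rho1 (a b N : ℝ) : ℝ := a * b / ((N - a) * (N - b))

/-- Squared norm of the disjointness operator on level two. -/
noncomputable def rho2 (a b N : ℝ) : ℝ :=
  a * (a - 1) * b * (b - 1) / ((N - a) * (N - a - 1) * (N - b) * (N - b - 1))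

end Pool.Agent.MMSA
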