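import Pool.Agent.MMSA.Defs

/-!
Down and up operators on the levels of the power set of `M` (`N` elements), the commutation relation
and the second-level contraction.

PLAN. `nq u M φ` is the sum of `φ S ^ 2` over the `u`-subsets of `M`.
* `adj`: double counting of the pairs `(S, x)`, `S` a `u`-subset, `x ∈ M \ S`, `U = insert x S`.
* `nq_up`: expand both squares; the diagonal terms give `(N - (v+1)) nq` resp. `(v+1) nq`, the
  off-diagonal terms are in both cases the sum of `ψ S ψ S'` over the ordered pairs of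
  `(v+1)`-subsets with `|S ∩ S'| = v`, i.e. `|S ∪ S'| = v + 2`.
* `flat_dn`: every `U` containing `i` is counted `u` times.
* `nq_dn_le`: induction on `u`. Let `A = nq u φ`, `B = nq (u-1) (dn φ)`, `C = nq (u-2) (dn (dn φ))`.
  For `u = 2` flatness gives `dn φ = 0` on singletons. For `u > 2`:
  `B ^ 2 = (∑ dn φ * dn φ) ^ 2 = (∑ up (dn φ) * φ) ^ 2 ≤ nq u (up (dn φ)) * A
     = (C + (N - 2 (u-1)) B) * A` and `C ≤ (u-3)(N-u) B` by induction (`dn φ` is flat), and
  `(u-3)(N-u) + N - 2u + 2 = (u-2)(N-u-1)`.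
-/

set_option autoImplicit false
set_option linter.unusedSectionVars false

namespace Pool.Agent.MMSA

open Finset Pool.Agent.H59.MMS

variable {α : Type*} [DecidableEq α]

/-- Down operator: sum over the supersets in `M` with one more element. -/
noncomputable def dn (M : Finset α) (φ : Finset α → ℝ) (S : Finset α) : ℝ :=
  ∑ x ∈ M \ S, φ (insert x S)

/-- Up operator: sum over the subsets with one element less. -/
noncomputable def up (ψ : Finset α → ℝ) (U : Finset α) : ℝ := ∑ x ∈ U, ψ (U.erase x)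

/-- Square sum over the `u`-subsets of `M`. -/
noncomputable def nq (u : ℕ) (M : Finset α) (φ : Finset α → ℝ) : ℝ :=
  ∑ S ∈ M.powersetCard u, φ S ^ 2

/-- No level zero and level one part. -/
def Flat (u : ℕ) (M : Finset α) (φ : Finset α → ℝ) : Prop :=
  ∀ i ∈ M, ∑ S ∈ (M.powersetCard u).filter (fun S => i ∈ S), φ S = 0

private lemma dcount (k : ℕ) (M : Finset α) (h : α → Finset α → ℝ) :
    ∑ S ∈ M.powersetCard (k + 1), ∑ i ∈ S, h i (S.erase i) =
      ∑ S ∈ M.powersetCard k, ∑ i ∈ M \ S, h i S := by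
  rw [sum_peel, sum_avoid]

theorem adj (u : ℕ) (M : Finset α) (ψ φ : Finset α → ℝ) :
    ∑ S ∈ M.powersetCard u, ψ S * dn M φ S = ∑ U ∈ M.powersetCard (u + 1), up ψ U * φ U := by
  have h := dcount u M (fun x S => ψ S * φ (insert x S))
  have h1 : ∑ S ∈ M.powersetCard u, ψ S * dn M φ S =
      ∑ S ∈ M.powersetCard u, ∑ i ∈ M \ S, ψ S * φ (insert i S) := by
    refine sum_congr rfl fun S _ => ?_
    rw [dn, mul_sum]
  rw [h1, ← h]
  refine sum_congr rfl fun U _ => ?_
  rw [up, sum_mul]
  refine sum_congr rfl fun x hx => ?_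
  rw [insert_erase hx]

theorem nq_up (v : ℕ) (M : Finset α) (ψ : Finset α → ℝ) :
    nq (v + 2) M (up ψ) = nq v M (dn M ψ) + ((M.card : ℝ) - 2 * (v + 1)) * nq (v + 1) M ψ := by
  have h1 : nq (v + 2) M (up ψ) = ((M.card : ℝ) - (v + 1)) * nq (v + 1) M ψ +
      ∑ S ∈ M.powersetCard (v + 1), ∑ x ∈ M \ S, ∑ y ∈ S, ψ S * ψ (insert x (S.erase y)) := by
    have h := dcount (v + 1) M
      (fun x S => ψ S * (ψ S + ∑ y ∈ S, ψ (insert x (S.erase y))))
    have h2 : nq (v + 2) M (up ψ) = ∑ U ∈ M.powersetCard (v + 1 + 1), ∑ x ∈ U,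
        ψ (U.erase x) * (ψ (U.erase x) +
          ∑ y ∈ U.erase x, ψ (insert x ((U.erase x).erase y))) := by
      unfold nq
      refine sum_congr rfl fun U _ => ?_
      rw [sq]
      conv_lhs => rw [up, sum_mul]
      refine sum_congr rfl fun x hx => ?_
      congr 1
      rw [← add_sum_erase U _ hx]
      congr 1
      refine sum_congr rfl fun y hy => ?_
      have hxy : x ≠ y := fun h => (mem_erase.1 hy).1 h.symm
      rw [erase_right_comm, insert_erase (mem_erase.2 ⟨hxy, hx⟩)]
    rw [h2, h]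
    unfold nq
    rw [mul_sum, ← sum_add_distrib]
    refine sum_congr rfl fun S hS => ?_
    obtain ⟨hSM, hSc⟩ := mem_powersetCard.1 hS
    simp only [mul_add, sum_add_distrib, sum_const, nsmul_eq_mul, mul_sum]
    rw [card_sdiff_of_subset hSM, Nat.cast_sub (card_le_card hSM), hSc]
    push_cast
    ring
  have h2 : nq v M (dn M ψ) = ((v : ℝ) + 1) * nq (v + 1) M ψ +
      ∑ S ∈ M.powersetCard (v + 1), ∑ x ∈ M \ S, ∑ y ∈ S, ψ S * ψ (insert x (S.erase y)) := by
    have h := dcount v M (fun y T => ψ (insert y T) * dn M ψ T)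
    have h3 : nq v M (dn M ψ) =
        ∑ T ∈ M.powersetCard v, ∑ y ∈ M \ T, ψ (insert y T) * dn M ψ T := by
      unfold nq
      refine sum_congr rfl fun T _ => ?_
      rw [sq]
      conv_lhs => enter [1]; rw [dn]
      rw [sum_mul]
    rw [h3, ← h]
    unfold nq
    rw [mul_sum, ← sum_add_distrib]
    refine sum_congr rfl fun S hS => ?_
    obtain ⟨hSM, hSc⟩ := mem_powersetCard.1 hS
    have h4 : ∀ y ∈ S, ψ (insert y (S.erase y)) * dn M ψ (S.erase y) =
        ψ S * ψ S + ∑ x ∈ M \ S, ψ S * ψ (insert x (S.erase y)) := by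
      intro y hy
      have h5 : M \ S.erase y = insert y (M \ S) := by
        ext a
        simp only [mem_sdiff, mem_erase, mem_insert, not_and, ne_eq]
        constructor
        · rintro ⟨h6, h7⟩
          by_cases h8 : a = y
          · exact Or.inl h8
          · exact Or.inr ⟨h6, h7 h8⟩
        · rintro (h6 | ⟨h6, h7⟩)
          · subst h6
            exact ⟨hSM hy, fun h => absurd rfl h⟩
          · exact ⟨h6, fun _ => h7⟩
      have h6 : y ∉ M \ S := fun h => (mem_sdiff.1 h).2 hy
      rw [dn, h5, sum_insert h6, insert_erase hy, mul_add, mul_sum]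
    rw [sum_congr rfl h4, sum_add_distrib, sum_const, nsmul_eq_mul, hSc, sum_comm]
    push_cast
    ring
  rw [h1, h2]
  ring

theorem flat_dn {u : ℕ} {M : Finset α} {φ : Finset α → ℝ} (h : Flat (u + 1) M φ) :
    Flat u M (dn M φ) := by
  intro i hi
  have h1 := adj u M (fun S => if i ∈ S then 1 else 0) φ
  have h2 : ∑ S ∈ M.powersetCard u, (if i ∈ S then (1 : ℝ) else 0) * dn M φ S =
      ∑ S ∈ (M.powersetCard u).filter (fun S => i ∈ S), dn M φ S := by
    rw [sum_filter]
    refine sum_congr rfl fun S _ => ?_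
    split_ifs
    · rw [one_mul]
    · rw [zero_mul]
  rw [← h2, h1]
  have h3 : ∀ U ∈ M.powersetCard (u + 1),
      up (fun S => if i ∈ S then (1 : ℝ) else 0) U * φ U =
        (u : ℝ) * (if i ∈ U then φ U else 0) := by
    intro U hU
    obtain ⟨_, hUc⟩ := mem_powersetCard.1 hU
    unfold up
    by_cases hiU : i ∈ U
    · rw [if_pos hiU]
      congr 1
      rw [← add_sum_erase U _ hiU]
      have h4 : ∀ x ∈ U.erase i, (if i ∈ U.erase x then (1 : ℝ) else 0) = 1 := by
        intro x hx
        rw [if_pos (mem_erase.2 ⟨fun h => (mem_erase.1 hx).1 h.symm, hiU⟩)]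
      rw [sum_congr rfl h4, sum_const, card_erase_of_mem hiU, hUc]
      simp
    · rw [if_neg hiU, mul_zero]
      have h4 : ∀ x ∈ U, (if i ∈ U.erase x then (1 : ℝ) else 0) = 0 := by
        intro x _
        rw [if_neg (fun h => hiU (mem_of_mem_erase h))]
      rw [sum_congr rfl h4, sum_const_zero, zero_mul]
  rw [sum_congr rfl h3, ← mul_sum, ← sum_filter, h i hi, mul_zero]

private lemma nq_nonneg (u : ℕ) (M : Finset α) (φ : Finset α → ℝ) : 0 ≤ nq u M φ :=
  sum_nonneg fun _ _ => sq_nonneg _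

private lemma nq_eq_zero {u : ℕ} {M : Finset α} {φ : Finset α → ℝ} (hu : 0 < u)
    (h : Flat u M φ) (hM : M.card ≤ u) : nq u M φ = 0 := by
  rcases lt_or_eq_of_le hM with h1 | h1
  · unfold nq
    rw [powersetCard_eq_empty.2 h1, sum_empty]
  · subst h1
    obtain ⟨i, hi⟩ := card_pos.1 hu
    have h2 := h i hi
    rw [powersetCard_self, filter_singleton, if_pos hi, sum_singleton] at h2
    unfold nq
    rw [powersetCard_self, sum_singleton, h2]
    simp

theorem nq_dn_le {u : ℕ} {M : Finset α} {φ : Finset α → ℝ} (h : Flat (u + 2) M φ) :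
    nq (u + 1) M (dn M φ) ≤ (u : ℝ) * ((M.card : ℝ) - u - 3) * nq (u + 2) M φ := by
  induction u generalizing φ with
  | zero =>
    have h1 := flat_dn h
    have h2 : nq (0 + 1) M (dn M φ) = 0 := by
      refine sum_eq_zero fun S hS => ?_
      obtain ⟨hSM, hSc⟩ := mem_powersetCard.1 hS
      obtain ⟨i, rfl⟩ := card_eq_one.1 hSc
      have hi : i ∈ M := singleton_subset_iff.1 hSM
      have h3 := h1 i hi
      have h4 : (M.powersetCard (0 + 1)).filter (fun S => i ∈ S) = {{i}} := by
        ext T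
        rw [mem_filter, mem_powersetCard, mem_singleton]
        constructor
        · rintro ⟨⟨_, h6⟩, h7⟩
          obtain ⟨j, rfl⟩ := card_eq_one.1 h6
          rw [mem_singleton.1 h7]
        · rintro rfl
          exact ⟨⟨singleton_subset_iff.2 hi, rfl⟩, mem_singleton_self i⟩
      rw [h4, sum_singleton] at h3
      rw [h3]
      simp
    rw [h2]
    simp
  | succ u ih =>
    have h1 := ih (flat_dn h)
    have h2 := nq_up (u + 1) M (dn M φ)
    have h3 := adj (u + 2) M (dn M φ) φ
    have hA := nq_nonneg (u + 3) M φ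
    have hB := nq_nonneg (u + 2) M (dn M φ)
    have h4 : nq (u + 2) M (dn M φ) ^ 2 ≤ nq (u + 1 + 2) M (up (dn M φ)) * nq (u + 3) M φ := by
      have h5 : nq (u + 2) M (dn M φ) = ∑ U ∈ M.powersetCard (u + 2 + 1), up (dn M φ) U * φ U := by
        rw [← h3]
        unfold nq
        exact sum_congr rfl fun S _ => sq _
      rw [h5]
      exact sum_mul_sq_le_sq_mul_sq _ _ _
    rw [h2] at h4
    change nq (u + 2) M (dn M φ) ≤ ((u + 1 : ℕ) : ℝ) * ((M.card : ℝ) - (u + 1 : ℕ) - 3) *
      nq (u + 3) M φ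
    change nq (u + 1) M (dn M (dn M φ)) ≤
      (u : ℝ) * ((M.card : ℝ) - u - 3) * nq (u + 2) M (dn M φ) at h1
    by_cases hM : M.card ≤ u + 3
    · have h6 : nq (u + 3) M φ = 0 := nq_eq_zero (by omega) h hM
      rw [h6, mul_zero] at h4 ⊢
      have h7 : nq (u + 2) M (dn M φ) = 0 := by
        refine pow_eq_zero_iff (n := 2) (by norm_num) |>.1 ?_
        exact le_antisymm h4 (sq_nonneg _)
      rw [h7]
    · have hM1 : ((u + 4 : ℕ) : ℝ) ≤ (M.card : ℝ) := by
        exact_mod_cast (show u + 4 ≤ M.card by omega)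
      push_cast at hM1 h4 ⊢
      have hK : 0 ≤ ((u : ℝ) + 1) * ((M.card : ℝ) - (u + 1) - 3) :=
        mul_nonneg (by positivity) (by linarith)
      rcases hB.eq_or_lt with h6 | h6
      · rw [← h6]
        exact mul_nonneg hK hA
      · have h7 : (nq (u + 1) M (dn M (dn M φ)) + ((M.card : ℝ) - 2 * ((u : ℝ) + 1 + 1)) *
            nq (u + 2) M (dn M φ)) * nq (u + 3) M φ ≤
            (((u : ℝ) + 1) * ((M.card : ℝ) - (u + 1) - 3) * nq (u + 2) M (dn M φ)) *
              nq (u + 3) M φ := by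
          refine mul_le_mul_of_nonneg_right ?_ hA
          nlinarith [h1]
        have h8 : nq (u + 2) M (dn M φ) * nq (u + 2) M (dn M φ) ≤
            nq (u + 2) M (dn M φ) *
              (((u : ℝ) + 1) * ((M.card : ℝ) - (u + 1) - 3) * nq (u + 3) M φ) := by
          calc _ = nq (u + 2) M (dn M φ) ^ 2 := by ring
            _ ≤ _ := h4.trans h7
            _ = _ := by ring
        exact le_of_mul_le_mul_left h8 h6

end Pool.Agent.MMSA
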