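import Pool.Agent.MMSA.DnA

/-!
The second-level contraction for averages: one step down.

PLAN. With `u + 2 = b + 1` (the case `b = 0` is trivial: `h` vanishes on singletons) this is
`nq_dn_le` divided by binomial coefficients: `C(N, b+1) (b+1) = C(N, b) (N - b)`. The hypothesis
`hlev` is `Flat (b+1) M h` (`sum over T ∋ i of h T = sum over b-subsets S of M \ i of h (S + i)`).
-/

set_option autoImplicit false
set_option linter.unusedSectionVars false

namespace Pool.Agent.MMSA

open Finset Pool.Agent.H59.MMS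

variable {α : Type*} [DecidableEq α]

theorem flat_of_lev {b : ℕ} {M : Finset α} {h : Finset α → ℝ} (hb : b + 1 ≤ M.card)
    (hlev : ∀ i ∈ M, av b (M.erase i) (fun T => h (insert i T)) = 0) : Flat (b + 1) M h := by
  intro i hi
  have h1 := hlev i hi
  unfold av at h1
  have hc : (((M.erase i).card.choose b : ℕ) : ℝ) ≠ 0 := by
    rw [card_erase_of_mem hi]
    exact_mod_cast (Nat.choose_pos (by omega)).ne'
  rw [div_eq_zero_iff] at h1
  have h2 := h1.resolve_right hc
  rw [← h2]
  refine sum_nbij' (fun S => S.erase i) (fun T => insert i T) ?_ ?_ ?_ ?_ ?_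
  · intro S hS
    rw [mem_filter, mem_powersetCard] at hS
    rw [mem_powersetCard]
    exact ⟨erase_subset_erase _ hS.1.1, by rw [card_erase_of_mem hS.2, hS.1.2]; rfl⟩
  · intro T hT
    rw [mem_powersetCard] at hT
    have hiT : i ∉ T := fun hmem => (mem_erase.1 (hT.1 hmem)).1 rfl
    rw [mem_filter, mem_powersetCard]
    exact ⟨⟨insert_subset hi (hT.1.trans (erase_subset _ _)),
      by rw [card_insert_of_notMem hiT, hT.2]⟩, mem_insert_self _ _⟩
  · intro S hS
    rw [mem_filter] at hS
    exact insert_erase hS.2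
  · intro T hT
    rw [mem_powersetCard] at hT
    have hiT : i ∉ T := fun hmem => (mem_erase.1 (hT.1 hmem)).1 rfl
    exact erase_insert hiT
  · intro S hS
    rw [mem_filter] at hS
    rw [insert_erase hS.2]

/-- Second-level contraction of the one-step down operator. -/
theorem down_level2 {b : ℕ} (M : Finset α) (h : Finset α → ℝ) (hb : b + 2 ≤ M.card)
    (hlev : ∀ i ∈ M, av b (M.erase i) (fun T => h (insert i T)) = 0) :
    av b M (fun R => ((∑ x ∈ M \ R, h (insert x R)) / ((M.card : ℝ) - b)) ^ 2) ≤
      (((b : ℝ) - 1) * ((M.card : ℝ) - b - 2) / ((b + 1) * ((M.card : ℝ) - b))) *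
        av (b + 1) M (fun T => h T ^ 2) := by
  have hN : (b : ℝ) + 2 ≤ M.card := by exact_mod_cast hb
  rcases Nat.eq_zero_or_pos b with rfl | hbpos
  · have h0 : ∀ i ∈ M, h {i} = 0 := by
      intro i hi
      have := hlev i hi
      rw [av_zero] at this
      simpa using this
    have e1 : av 0 M (fun R => ((∑ x ∈ M \ R, h (insert x R)) / ((M.card : ℝ) - (0 : ℕ))) ^ 2)
        = 0 := by
      rw [av_zero]
      have : ∑ x ∈ M \ ∅, h (insert x ∅) = 0 := by
        refine sum_eq_zero fun x hx => ?_
        rw [sdiff_empty] at hx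
        exact h0 x hx
      rw [this]
      simp
    have e2 : av (0 + 1) M (fun T => h T ^ 2) = 0 := by
      unfold av
      have : ∑ S ∈ M.powersetCard (0 + 1), h S ^ 2 = 0 := by
        refine sum_eq_zero fun S hS => ?_
        rw [mem_powersetCard, zero_add, card_eq_one] at hS
        obtain ⟨hSM, x, rfl⟩ := hS
        rw [h0 x (hSM (mem_singleton_self x))]
        simp
      rw [this, zero_div]
    rw [e1, e2, mul_zero]
  · obtain ⟨u, rfl⟩ : ∃ u, b = u + 1 := ⟨b - 1, by omega⟩
    have hF : Flat (u + 2) M h := flat_of_lev (by omega) hlev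
    have key := nq_dn_le hF
    have hc : ((u + 1 + 1 : ℕ) : ℝ) * (M.card.choose (u + 1 + 1)) =
        ((M.card : ℝ) - ((u + 1 : ℕ) : ℝ)) * (M.card.choose (u + 1)) := by
      rw [choose_peel (by omega), choose_avoid (by omega)]
    have c1 : (0 : ℝ) < (M.card.choose (u + 1) : ℝ) := by
      exact_mod_cast Nat.choose_pos (by omega)
    have c2 : (0 : ℝ) < (M.card.choose (u + 1 + 1) : ℝ) := by
      exact_mod_cast Nat.choose_pos (by omega)
    push_cast at hN hc
    have d1 : (0 : ℝ) < (M.card : ℝ) - (u + 1) := by linarith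
    have L : av (u + 1) M (fun R => ((∑ x ∈ M \ R, h (insert x R)) /
        ((M.card : ℝ) - ((u + 1 : ℕ) : ℝ))) ^ 2) =
        nq (u + 1) M (dn M h) / (((M.card : ℝ) - (u + 1)) ^ 2 * (M.card.choose (u + 1))) := by
      unfold av nq
      rw [← div_div]
      congr 1
      rw [sum_div]
      refine sum_congr rfl fun S _ => ?_
      unfold dn
      push_cast
      rw [div_pow]
    have Rr : av (u + 1 + 1) M (fun T => h T ^ 2) =
        nq (u + 2) M h / (M.card.choose (u + 1 + 1)) := rfl
    rw [L, Rr]
    push_cast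
    rw [div_le_iff₀ (by positivity)]
    have e : ((u : ℝ) + 1 - 1) * ((M.card : ℝ) - (u + 1) - 2) /
        ((u + 1 + 1) * ((M.card : ℝ) - (u + 1))) * (nq (u + 2) M h /
          (M.card.choose (u + 1 + 1))) * (((M.card : ℝ) - (u + 1)) ^ 2 *
          (M.card.choose (u + 1))) = (u : ℝ) * ((M.card : ℝ) - u - 3) * nq (u + 2) M h := by
      have hu : (0 : ℝ) < (u : ℝ) + 1 + 1 := by positivity
      rw [div_mul_div_comm, div_mul_eq_mul_div, div_eq_iff (by positivity)]
      have : ((u : ℝ) + 1 + 1) * ((M.card : ℝ) - (u + 1)) * (M.card.choose (u + 1 + 1)) =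
          ((M.card : ℝ) - (u + 1)) ^ 2 * (M.card.choose (u + 1)) := by
        linear_combination ((M.card : ℝ) - (u + 1)) * hc
      rw [this]
      ring
    rw [e]
    exact key

end Pool.Agent.MMSA
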