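import Pool.Agent.MMSA.DnB

/-!
The second-level contraction of the disjointness operator.

PLAN. For `b = 0` the function vanishes on singletons. Let `b ≥ 1`, `N = |M|`, and let
`G A = av (b+1) (M \ A) h` for `A ⊆ M` with `|A| + (b + 1) ≤ N`. Downward induction on `a` from
`a = N - (b+1)`.
* Base `a = N - (b+1)`: `G A = h (M \ A)` and complementation gives
  `av a M (G ^ 2) = av (b+1) M (h ^ 2)`; the constant `rho2 a (b+1) N` is `1`.
* Step from `a + 1` to `a`: `G A = (∑ x ∈ M \ A, G (insert x A)) / (N - a)` (`av_erase_avg` inside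
  `M \ A`), `G` satisfies the level condition on `(a+1)`-subsets
  (`av a (M.erase i) (fun A => G (insert i A)) = av (b+1) (M.erase i) h = 0` by `av_disj`, and
  `av (b+1) (M.erase i) h = 0` because `av (b+1) M h = 0` and `av_split`), so `down_level2` for `G`
  gives the factor `(a-1)(N-a-2)/((a+1)(N-a))`, and
  `rho2 a (b+1) N = (a-1)(N-a-2)/((a+1)(N-a)) * rho2 (a+1) (b+1) N` (here `N - a - 2 ≥ b ≥ 1`).
-/

set_option autoImplicit false
set_option linter.unusedSectionVars false

namespace Pool.Agent.MMSA

open Finset Pool.Agent.H59.MMS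

variable {α : Type*} [DecidableEq α]

/-- The average over all sets vanishes. -/
theorem av_zero_of_lev {b : ℕ} {M : Finset α} {h : Finset α → ℝ} (hb : b + 1 ≤ M.card)
    (hlev : ∀ i ∈ M, av b (M.erase i) (fun T => h (insert i T)) = 0) : av (b + 1) M h = 0 := by
  rw [av_peel' hb, sum_eq_zero hlev, zero_div]

/-- The average over the sets avoiding `i` vanishes. -/
theorem av_erase_zero_of_lev {b : ℕ} {M : Finset α} {h : Finset α → ℝ} (hb : b + 2 ≤ M.card)
    (hlev : ∀ i ∈ M, av b (M.erase i) (fun T => h (insert i T)) = 0) :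
    ∀ i ∈ M, av (b + 1) (M.erase i) h = 0 := by
  intro i hi
  have h1 := av_split hi (show b + 1 ≤ M.card by omega) h
  rw [av_zero_of_lev (by omega) hlev, hlev i hi, mul_zero, add_zero] at h1
  have h2 : (b : ℝ) + 2 ≤ M.card := by exact_mod_cast hb
  have hb0 : (0 : ℝ) ≤ b := Nat.cast_nonneg b
  have h3 : ((M.card : ℝ) - (b + 1)) / M.card ≠ 0 := by
    refine div_ne_zero ?_ ?_
    · linarith
    · linarith
  rcases mul_eq_zero.1 h1.symm with h4 | h4
  · exact absurd h4 h3
  · exact h4

private theorem av_full {c : ℕ} {V : Finset α} (hV : V.card = c) (g : Finset α → ℝ) :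
    av c V g = g V := by
  unfold av
  subst hV
  rw [powersetCard_self, sum_singleton, Nat.choose_self]
  simp

private theorem av_compl {a c : ℕ} {M : Finset α} (h : a + c = M.card) (g : Finset α → ℝ) :
    av a M (fun A => g (M \ A)) = av c M g := by
  unfold av
  congr 1
  · refine sum_nbij' (fun A => M \ A) (fun T => M \ T) ?_ ?_ ?_ ?_ ?_
    · intro A hA
      rw [mem_powersetCard] at hA ⊢
      exact ⟨sdiff_subset, by rw [card_sdiff_of_subset hA.1]; omega⟩
    · intro T hT
      rw [mem_powersetCard] at hT ⊢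
      exact ⟨sdiff_subset, by rw [card_sdiff_of_subset hT.1]; omega⟩
    · intro A hA
      rw [mem_powersetCard] at hA
      rw [sdiff_sdiff_right_self, inf_eq_inter, inter_eq_right.2 hA.1]
    · intro T hT
      rw [mem_powersetCard] at hT
      rw [sdiff_sdiff_right_self, inf_eq_inter, inter_eq_right.2 hT.1]
    · intro A hA
      rfl
  · have h1 : M.card.choose a = M.card.choose c := by
      rw [← h]
      exact Nat.choose_symm_add
    rw [h1]

private theorem disj_aux {b : ℕ} (hb : 1 ≤ b) (M : Finset α) (h : Finset α → ℝ)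
    (hb2 : b + 3 ≤ M.card)
    (hlev : ∀ i ∈ M, av b (M.erase i) (fun T => h (insert i T)) = 0) :
    ∀ d a : ℕ, a + (b + 1) + d = M.card → 1 ≤ a →
      av a M (fun A => (av (b + 1) (M \ A) h) ^ 2) ≤
        rho2 a (b + 1) M.card * av (b + 1) M (fun T => h T ^ 2) := by
  have hb1 : (1 : ℝ) ≤ b := by exact_mod_cast hb
  intro d
  induction d with
  | zero =>
    intro a ha ha1
    have e1 : av a M (fun A => (av (b + 1) (M \ A) h) ^ 2) = av (b + 1) M (fun T => h T ^ 2) := by
      rw [← av_compl (show a + (b + 1) = M.card by omega) (fun T => h T ^ 2)]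
      refine av_congr fun A hA hc => ?_
      rw [av_full (by rw [card_sdiff_of_subset hA, hc]; omega)]
    have hN : (M.card : ℝ) = a + (b + 1) := by
      rw [← ha]
      push_cast
      ring
    have ha2 : (2 : ℝ) ≤ a := by exact_mod_cast (show 2 ≤ a by omega)
    have e2 : rho2 a (b + 1) M.card = 1 := by
      unfold rho2
      rw [hN]
      have h1 : (a : ℝ) - 1 ≠ 0 := by
        have : (0 : ℝ) < (a : ℝ) - 1 := by linarith
        exact this.ne'
      rw [div_eq_one_iff_eq]
      · ring
      · refine mul_ne_zero (mul_ne_zero (mul_ne_zero ?_ ?_) ?_) ?_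
        · have : (0 : ℝ) < (a : ℝ) + (b + 1) - a := by linarith
          exact this.ne'
        · have : (0 : ℝ) < (a : ℝ) + (b + 1) - a - 1 := by linarith
          exact this.ne'
        · have : (0 : ℝ) < (a : ℝ) + (b + 1) - (b + 1) := by linarith
          exact this.ne'
        · have : (0 : ℝ) < (a : ℝ) + (b + 1) - (b + 1) - 1 := by linarith
          exact this.ne'
    rw [e1, e2, one_mul]
  | succ d ih =>
    intro a ha ha1
    have ih' := ih (a + 1) (by omega) (by omega)
    set G : Finset α → ℝ := fun A => av (b + 1) (M \ A) h with hG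
    set W := av (b + 1) M (fun T => h T ^ 2) with hW
    have hW0 : 0 ≤ W := av_nonneg fun _ _ _ => sq_nonneg _
    have ha1' : (1 : ℝ) ≤ a := by exact_mod_cast ha1
    have hN : (a : ℝ) + b + 2 ≤ M.card := by
      exact_mod_cast (show a + b + 2 ≤ M.card by omega)
    have hstep : av a M (fun A => (av (b + 1) (M \ A) h) ^ 2) =
        av a M (fun R => ((∑ x ∈ M \ R, G (insert x R)) / ((M.card : ℝ) - a)) ^ 2) := by
      refine av_congr fun A hA hc => ?_
      have hcard : (M \ A).card = M.card - a := by rw [card_sdiff_of_subset hA, hc]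
      have hcard' : ((M \ A).card : ℝ) = (M.card : ℝ) - a := by
        rw [hcard, Nat.cast_sub (by omega)]
      have h1 := av_erase_avg (b := b + 1) (M := M \ A) (by omega) h
      rw [← h1, hcard']
      congr 2
      refine sum_congr rfl fun x hx => ?_
      rw [hG]
      change av (b + 1) ((M \ A).erase x) h = av (b + 1) (M \ insert x A) h
      congr 1
      ext z
      simp only [mem_sdiff, mem_insert, mem_erase]
      tauto
    have hlevG : ∀ i ∈ M, av a (M.erase i) (fun T => G (insert i T)) = 0 := by
      intro i hi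
      have hc : (M.erase i).card = M.card - 1 := card_erase_of_mem hi
      rw [← av_erase_zero_of_lev (by omega) hlev i hi,
        ← av_disj h a (M.erase i) (by omega)]
      refine av_congr fun T _ _ => ?_
      rw [hG]
      change av (b + 1) (M \ insert i T) h = av (b + 1) ((M.erase i) \ T) h
      congr 1
      ext z
      simp only [mem_sdiff, mem_insert, mem_erase]
      tauto
    have hdn := down_level2 M G (b := a) (by omega) hlevG
    rw [hstep]
    have hc0 : 0 ≤ ((a : ℝ) - 1) * ((M.card : ℝ) - a - 2) / ((a + 1) * ((M.card : ℝ) - a)) := by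
      refine div_nonneg (mul_nonneg (by linarith) (by linarith)) (mul_nonneg (by linarith) ?_)
      linarith
    refine hdn.trans ((mul_le_mul_of_nonneg_left ih' hc0).trans (le_of_eq ?_))
    rw [← mul_assoc]
    congr 1
    unfold rho2
    push_cast
    have d1 : (M.card : ℝ) - a ≠ 0 := by
      have : (0 : ℝ) < (M.card : ℝ) - a := by linarith
      exact this.ne'
    have d2 : (M.card : ℝ) - a - 1 ≠ 0 := by
      have : (0 : ℝ) < (M.card : ℝ) - a - 1 := by linarith
      exact this.ne'
    have d3 : (M.card : ℝ) - a - 2 ≠ 0 := by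
      have : (0 : ℝ) < (M.card : ℝ) - a - 2 := by linarith
      exact this.ne'
    have d4 : (M.card : ℝ) - (b + 1) ≠ 0 := by
      have : (0 : ℝ) < (M.card : ℝ) - (b + 1) := by linarith
      exact this.ne'
    have d5 : (M.card : ℝ) - (b + 1) - 1 ≠ 0 := by
      have : (0 : ℝ) < (M.card : ℝ) - (b + 1) - 1 := by linarith
      exact this.ne'
    have d6 : (a : ℝ) + 1 ≠ 0 := by positivity
    have d7 : (M.card : ℝ) - (a + 1) ≠ 0 := by
      have : (0 : ℝ) < (M.card : ℝ) - (a + 1) := by linarith
      exact this.ne'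
    have d8 : (M.card : ℝ) - (a + 1) - 1 ≠ 0 := by
      have : (0 : ℝ) < (M.card : ℝ) - (a + 1) - 1 := by linarith
      exact this.ne'
    rw [div_mul_div_comm, div_eq_div_iff
      (mul_ne_zero (mul_ne_zero d6 d1) (mul_ne_zero (mul_ne_zero (mul_ne_zero d7 d8) d4) d5))
      (mul_ne_zero (mul_ne_zero (mul_ne_zero d1 d2) d4) d5)]
    ring

/-- Second-level contraction of the disjointness operator. -/
theorem disj_level2 {a b : ℕ} (M : Finset α) (h : Finset α → ℝ) (hab : a + (b + 1) ≤ M.card)
    (ha : 1 ≤ a) (ha2 : a + 2 ≤ M.card) (hb2 : b + 3 ≤ M.card)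
    (hlev : ∀ i ∈ M, av b (M.erase i) (fun T => h (insert i T)) = 0) :
    av a M (fun A => (av (b + 1) (M \ A) h) ^ 2) ≤
      rho2 a (b + 1) M.card * av (b + 1) M (fun T => h T ^ 2) := by
  rcases Nat.eq_zero_or_pos b with rfl | hb
  · have h0 : ∀ i ∈ M, h {i} = 0 := by
      intro i hi
      have h1 := hlev i hi
      rw [av_zero] at h1
      simpa using h1
    have e1 : av a M (fun A => (av (0 + 1) (M \ A) h) ^ 2) = av a M (fun _ => 0) := by
      refine av_congr fun A _ _ => ?_
      have e2 : av (0 + 1) (M \ A) h = 0 := by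
        unfold av
        have e3 : ∑ S ∈ (M \ A).powersetCard (0 + 1), h S = 0 := by
          refine sum_eq_zero fun S hS => ?_
          rw [mem_powersetCard, zero_add, card_eq_one] at hS
          obtain ⟨hSM, x, rfl⟩ := hS
          exact h0 x (mem_sdiff.1 (hSM (mem_singleton_self x))).1
        rw [e3, zero_div]
      rw [e2]
      simp
    rw [e1, av_const (by omega)]
    unfold rho2
    simp
  · exact disj_aux hb M h hb2 hlev (M.card - (a + (b + 1))) a (by omega) ha

end Pool.Agent.MMSA
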