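import Pool.Agent.MMSA.Proj

/-!
The level-one inequality with third and fourth moments: the projection of the indicator of an event
of probability `q` to level one is small.

PLAN. Put `c = cf b M h`, `F T = ∑ j ∈ T, c j`, `s2 = lv b M h = A2 * ∑ c ^ 2`. If `s2 = 0` there
is nothing to do. Otherwise `s = sqrt s2 > 0` and `l = F / s` has `av l = 0`, `av l^2 = 1`,
`av l^3 = A3 ∑ c^3 / s^3`, `av l^4 = A4 ∑ c^4 / s^4 + A22 / A2^2` (mom1..mom4 of H59.MMS.Moments,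
`sum_cf`), and `av (h * l) = s` (`av_mul_lin` with the linear function `c` itself). Pointwise
`h T * l T ≤ P (l T) + t * h T` where `P u = a0 + a1 u + ... + a4 u^4`. So
`s ≤ a0 + a2 + a3 A3 m + a4 (A4 M4 + A22/A2^2) + t q` with `m = ∑ c^3/s^3`, `M4 = ∑ c^4/s^4`;
Cauchy-Schwarz `(∑ c^3)^2 ≤ (∑ c^2)(∑ c^4)` is `A2 m^2 ≤ M4`; as `A4 < 0 < a4`,
`a3 A3 m + a4 A4 M4 ≤ a3 A3 m - a4 (-A4) A2 m^2 ≤ (a3 A3)^2 / (4 a4 (-A4) A2)`.
Hence `0 < s ≤ lb1 ...` and squaring finishes the proof. (`A2 = A2 (b+1) N` etc.)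
-/

set_option autoImplicit false
set_option linter.unusedSectionVars false

namespace Pool.Agent.MMSA

open Finset Pool.Agent.H59.MMS

variable {α : Type*} [DecidableEq α]

/-- Bound for the correlation of an event of probability `q` with a normalised linear function on
the `b`-subsets of an `N`-element set, from a quartic `a0 + a1 u + ... + a4 u^4` that is above
`0` and above `u - t`. -/
noncomputable def lb1 (b N a0 a2 a3 a4 t q : ℝ) : ℝ :=
  a0 + a2 + a4 * (A22 b N / A2 b N ^ 2) + (a3 * A3 b N) ^ 2 / (4 * a4 * (-A4 b N) * A2 b N) + t * q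

/-- Level-one inequality. -/
theorem level_one {b : ℕ} (M : Finset α) (h : Finset α → ℝ) (hb : b + 2 ≤ M.card)
    (hM : 4 ≤ M.card) (h01 : ∀ T, h T ^ 2 = h T)
    (hA4 : A4 (b + 1) M.card < 0)
    {a0 a1 a2 a3 a4 t : ℝ} (ha4 : 0 < a4)
    (hP0 : ∀ u : ℝ, 0 ≤ a0 + a1 * u + a2 * u ^ 2 + a3 * u ^ 3 + a4 * u ^ 4)
    (hPt : ∀ u : ℝ, u - t ≤ a0 + a1 * u + a2 * u ^ 2 + a3 * u ^ 3 + a4 * u ^ 4) :
    lv b M h ≤ (lb1 (b + 1) M.card a0 a2 a3 a4 t (av (b + 1) M h)) ^ 2 := by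
  set c : α → ℝ := cf b M h with hcdef
  set P2 : ℝ := ∑ j ∈ M, c j ^ 2 with hP2
  set P3 : ℝ := ∑ j ∈ M, c j ^ 3 with hP3
  set P4 : ℝ := ∑ j ∈ M, c j ^ 4 with hP4
  have hc : ∑ j ∈ M, c j = 0 := sum_cf M h hb
  have hN : (4 : ℝ) ≤ M.card := by exact_mod_cast hM
  have hbN : (b : ℝ) + 2 ≤ M.card := by exact_mod_cast hb
  have hN0 : (M.card : ℝ) ≠ 0 := by positivity
  have hN1 : (M.card : ℝ) - 1 ≠ 0 := by linarith
  have hN2 : (M.card : ℝ) - 2 ≠ 0 := by linarith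
  have hN3 : (M.card : ℝ) - 3 ≠ 0 := by linarith
  have hk : b + 1 ≤ M.card := by omega
  have hA2 : 0 < A2 ((b : ℝ) + 1) M.card := by
    unfold A2
    have h1 : (0 : ℝ) < M.card - (b + 1) := by linarith
    have h2 : (0 : ℝ) < (M.card : ℝ) - 1 := by linarith
    positivity
  have hlv : lv b M h = A2 ((b : ℝ) + 1) M.card * P2 := rfl
  have hP2n : 0 ≤ P2 := Finset.sum_nonneg fun j _ => sq_nonneg _
  rcases hP2n.eq_or_lt with hz | hpos
  · rw [hlv, ← hz, mul_zero]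
    positivity
  set B2 : ℝ := A2 ((b : ℝ) + 1) M.card with hB2
  set B3 : ℝ := A3 ((b : ℝ) + 1) M.card with hB3
  set B4 : ℝ := A4 ((b : ℝ) + 1) M.card with hB4
  set B22 : ℝ := A22 ((b : ℝ) + 1) M.card with hB22
  set s : ℝ := Real.sqrt (B2 * P2) with hs
  have hs0 : 0 < s := Real.sqrt_pos.2 (mul_pos hA2 hpos)
  have hs2 : s ^ 2 = B2 * P2 := Real.sq_sqrt (mul_pos hA2 hpos).le
  have hav := av_mul_lin M h hb c hc
  have e0 : av (b + 1) M (fun T => h T * ((∑ j ∈ T, c j) / s)) = s := by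
    have h1 : (fun T : Finset α => h T * ((∑ j ∈ T, c j) / s)) =
        fun T => (1 / s) * (h T * ∑ j ∈ T, c j) := by
      funext T
      ring
    rw [h1, av_mul, hav]
    have h2 : ∑ j ∈ M, cf b M h j * c j = P2 := by
      rw [hP2]
      refine Finset.sum_congr rfl fun j _ => ?_
      rw [hcdef]
      ring
    rw [h2, ← hB2, ← hs2]
    field_simp
  have e1 : av (b + 1) M (fun T => (∑ j ∈ T, c j)) = 0 := by
    rw [mom1 hk (by omega), hc, mul_zero]
  have e2 : av (b + 1) M (fun T => (∑ j ∈ T, c j) ^ 2) = B2 * P2 := by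
    rw [mom2 hk (by omega), hc, ← hP2, hB2]
    unfold A2
    push_cast
    field_simp
    ring
  have e3 : av (b + 1) M (fun T => (∑ j ∈ T, c j) ^ 3) = B3 * P3 := by
    rw [mom3 hk (by omega), hc, ← hP2, ← hP3, hB3]
    unfold A3
    push_cast
    field_simp
    ring
  have e4 : av (b + 1) M (fun T => (∑ j ∈ T, c j) ^ 4) = B4 * P4 + B22 * P2 ^ 2 := by
    rw [mom4 hk hM c hc, ← hP2, ← hP4, hB4, hB22]
    unfold A4 A22
    push_cast
    field_simp
  have key : s ≤ a0 + a2 + a3 * (B3 * P3 / s ^ 3) + a4 * ((B4 * P4 + B22 * P2 ^ 2) / s ^ 4) +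
      t * av (b + 1) M h := by
    have h1 : av (b + 1) M (fun T => h T * ((∑ j ∈ T, c j) / s)) ≤
        av (b + 1) M (fun T => ((((a0 + (a1 / s) * (∑ j ∈ T, c j)) +
          (a2 / s ^ 2) * (∑ j ∈ T, c j) ^ 2) + (a3 / s ^ 3) * (∑ j ∈ T, c j) ^ 3) +
          (a4 / s ^ 4) * (∑ j ∈ T, c j) ^ 4) + t * h T) := by
      refine av_mono fun T _ _ => ?_
      have h2 : ((((a0 + (a1 / s) * (∑ j ∈ T, c j)) +
          (a2 / s ^ 2) * (∑ j ∈ T, c j) ^ 2) + (a3 / s ^ 3) * (∑ j ∈ T, c j) ^ 3) +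
          (a4 / s ^ 4) * (∑ j ∈ T, c j) ^ 4) = a0 + a1 * ((∑ j ∈ T, c j) / s) +
          a2 * ((∑ j ∈ T, c j) / s) ^ 2 + a3 * ((∑ j ∈ T, c j) / s) ^ 3 +
          a4 * ((∑ j ∈ T, c j) / s) ^ 4 := by
        rw [div_pow, div_pow, div_pow]
        ring
      rw [h2]
      have h3 : h T = 0 ∨ h T = 1 := by
        have h4 := h01 T
        have h5 : h T * (h T - 1) = 0 := by linarith
        rcases mul_eq_zero.1 h5 with h6 | h6
        · exact Or.inl h6
        · exact Or.inr (by linarith)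
      rcases h3 with h3 | h3
      · rw [h3, zero_mul, mul_zero, add_zero]
        exact hP0 _
      · rw [h3, one_mul, mul_one]
        have h4 := hPt ((∑ j ∈ T, c j) / s)
        linarith
    rw [e0, av_add, av_add, av_add, av_add, av_add, av_const hk, av_mul, av_mul, av_mul, av_mul,
      av_mul, e1, e2, e3, e4] at h1
    have h5 : a2 / s ^ 2 * (B2 * P2) = a2 := by
      rw [← hs2]
      field_simp
    rw [h5] at h1
    calc s ≤ _ := h1
      _ = _ := by ring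
  have hs4 : s ^ 4 = (B2 * P2) ^ 2 := by
    rw [← hs2]
    ring
  have hcs : P3 ^ 2 ≤ P2 * P4 := by
    have h1 := Finset.sum_mul_sq_le_sq_mul_sq M c (fun j => c j ^ 2)
    have h2 : ∑ j ∈ M, c j * c j ^ 2 = P3 := Finset.sum_congr rfl fun j _ => by ring
    have h3 : ∑ j ∈ M, (c j ^ 2) ^ 2 = P4 := Finset.sum_congr rfl fun j _ => by ring
    rw [h2, h3] at h1
    exact h1
  set m : ℝ := P3 / s ^ 3 with hm
  have hm2 : B2 * m ^ 2 ≤ P4 / s ^ 4 := by
    rw [hm, div_pow, ← pow_mul]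
    have h1 : P4 / s ^ 4 = B2 * (P2 * P4) / s ^ (3 * 2) := by
      have h2 : s ^ (3 * 2) = s ^ 4 * s ^ 2 := by ring
      rw [h2, hs2]
      have hP20 : P2 ≠ 0 := hpos.ne'
      have hB20 : B2 ≠ 0 := hA2.ne'
      have hs40 : s ^ 4 ≠ 0 := by positivity
      field_simp
    rw [h1, ← mul_div_assoc]
    refine div_le_div_of_nonneg_right ?_ (by positivity)
    exact mul_le_mul_of_nonneg_left hcs hA2.le
  have hB4n : 0 < -B4 := by linarith
  have hD : 0 < a4 * (-B4) * B2 := by positivity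
  have hfin : a3 * (B3 * P3 / s ^ 3) + a4 * ((B4 * P4 + B22 * P2 ^ 2) / s ^ 4) ≤
      a4 * (B22 / B2 ^ 2) + (a3 * B3) ^ 2 / (4 * a4 * (-B4) * B2) := by
    have h1 : a4 * ((B4 * P4 + B22 * P2 ^ 2) / s ^ 4) =
        -(a4 * (-B4)) * (P4 / s ^ 4) + a4 * (B22 / B2 ^ 2) := by
      have hP20 : P2 ≠ 0 := hpos.ne'
      have hB20 : B2 ≠ 0 := hA2.ne'
      rw [hs4]
      field_simp
    have h2 : a3 * (B3 * P3 / s ^ 3) = a3 * B3 * m := by
      rw [hm]
      ring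
    have h3 : a4 * (-B4) * (B2 * m ^ 2) ≤ a4 * (-B4) * (P4 / s ^ 4) :=
      mul_le_mul_of_nonneg_left hm2 (by positivity)
    have h4 : a3 * B3 * m - a4 * (-B4) * (B2 * m ^ 2) ≤
        (a3 * B3) ^ 2 / (4 * a4 * (-B4) * B2) := by
      rw [le_div_iff₀ (by linarith)]
      nlinarith [sq_nonneg (a3 * B3 - 2 * (a4 * (-B4) * B2) * m)]
    rw [h1, h2]
    linarith
  have hle : s ≤ lb1 ((b : ℝ) + 1) M.card a0 a2 a3 a4 t (av (b + 1) M h) := by
    unfold lb1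
    rw [← hB2, ← hB3, ← hB4, ← hB22]
    linarith
  rw [hlv, ← hs2]
  exact pow_le_pow_left₀ hs0.le hle 2

end Pool.Agent.MMSA
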