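import Pool.Agent.MMSA.StageA
import Pool.Agent.MMSA.Lev1

/-!
Stage A: in a system with few good `(k+1)`-subsets, the fraction of good sets among the sets through
any element `i` is at most `γ`.
-/

set_option autoImplicit false
set_option linter.unusedSectionVars false

namespace Pool.Agent.MMSA

open Finset Pool.Agent.H59.MMS

variable {α : Type*} [DecidableEq α]

/-- The fraction of good sets among the `(k+1)`-sets through `i`. -/
noncomputable def gi (k : ℕ) (V : Finset α) (x : α → ℝ) (i : α) : ℝ :=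
  av k (V.erase i) (fun S => nn x (insert i S))

theorem gi_eq {k : ℕ} {V : Finset α} {i : α} (hi : i ∈ V) (hk : k + 1 ≤ V.card) (x : α → ℝ) :
    gi k V x i = 1 - av k (V.erase i) (bad x i) := by
  have hc : k ≤ (V.erase i).card := by rw [Finset.card_erase_of_mem hi]; omega
  unfold gi
  rw [av_congr (G := fun S => (1 : ℝ) - bad x i S), av_sub, av_const hc]
  intro S hS _
  have hni : i ∉ S := fun h => (Finset.mem_erase.1 (hS h)).1 rfl
  unfold nn bad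
  rw [Finset.sum_insert hni]
  by_cases h : 0 ≤ x i + ∑ j ∈ S, x j
  · rw [if_pos h, if_neg (not_lt.2 h)]; norm_num
  · rw [if_neg h, if_pos (not_le.1 h)]; norm_num

theorem gi_nonneg {k : ℕ} {V : Finset α} (x : α → ℝ) (i : α) : 0 ≤ gi k V x i :=
  av_nonneg fun _ _ _ => nn_nonneg x _

theorem gi_le_one {k : ℕ} {V : Finset α} {i : α} (hi : i ∈ V) (hk : k + 1 ≤ V.card) (x : α → ℝ) :
    gi k V x i ≤ 1 := by
  rw [gi_eq hi hk]
  have := av_nonneg (k := k) (V := V.erase i) (F := bad x i) fun S _ _ => bad_nonneg x i S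
  linarith

/-- total probability -/
theorem good_split {k : ℕ} {V : Finset α} {i : α} (hi : i ∈ V) (hk : k + 1 ≤ V.card)
    (x : α → ℝ) :
    av (k + 1) V (nn x) = (((V.card : ℝ) - (k + 1)) / V.card) * av (k + 1) (V.erase i) (nn x) +
      (((k : ℝ) + 1) / V.card) * gi k V x i := by
  rw [av_split hi hk]
  rfl

/-- The weight bound used below. -/
noncomputable def Lq (Λ t q : ℝ) : ℝ := min ((Λ + t * q) ^ 2) (q * (1 - q))

theorem lv_nonneg {b : ℕ} {M : Finset α} (h : Finset α → ℝ) (hb : b + 2 ≤ M.card) :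
    0 ≤ lv b M h := by
  unfold lv
  refine mul_nonneg ?_ (Finset.sum_nonneg fun _ _ => sq_nonneg _)
  have h1 : ((b : ℝ) + 2) ≤ M.card := by exact_mod_cast hb
  have h0 : (0 : ℝ) ≤ b := by positivity
  unfold A2
  refine div_nonneg (mul_nonneg (by linarith) (by linarith)) (mul_nonneg (by linarith) (by linarith))

/-- The level-one weight of the good sets avoiding `i`. -/
theorem lv_le_Lq {k : ℕ} {V : Finset α} {i : α} (hi : i ∈ V) (hn4 : k + 4 ≤ V.card)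
    (hV : 5 ≤ V.card) (x : α → ℝ)
    (hA4 : A4 (k + 1) ((V.card : ℝ) - 1) < 0)
    {a0 a1 a2 a3 a4 t Λ : ℝ} (ha4 : 0 < a4)
    (hP0 : ∀ u : ℝ, 0 ≤ a0 + a1 * u + a2 * u ^ 2 + a3 * u ^ 3 + a4 * u ^ 4)
    (hPt : ∀ u : ℝ, u - t ≤ a0 + a1 * u + a2 * u ^ 2 + a3 * u ^ 3 + a4 * u ^ 4)
    (hΛ : lb1 (k + 1) ((V.card : ℝ) - 1) a0 a2 a3 a4 t 0 ≤ Λ)
    (hΛ0 : 0 ≤ lb1 (k + 1) ((V.card : ℝ) - 1) a0 a2 a3 a4 t 0) (ht : 0 ≤ t) :
    lv k (V.erase i) (nn x) ≤ Lq Λ t (av (k + 1) (V.erase i) (nn x)) := by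
  have hc : (V.erase i).card = V.card - 1 := Finset.card_erase_of_mem hi
  have hcr : ((V.erase i).card : ℝ) = V.card - 1 := card_erase_cast hi
  set q := av (k + 1) (V.erase i) (nn x) with hq
  have hq0 : 0 ≤ q := av_nonneg fun _ _ _ => nn_nonneg x _
  unfold Lq
  refine le_min ?_ ?_
  · have h := level_one (b := k) (V.erase i) (nn x) (by rw [hc]; omega) (by rw [hc]; omega) (nn_sq x) (by rw [hcr]; exact hA4)
      ha4 hP0 hPt
    rw [hcr, ← hq] at h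
    refine h.trans (pow_le_pow_left₀ ?_ ?_ 2)
    · have : lb1 (k + 1) ((V.card : ℝ) - 1) a0 a2 a3 a4 t q =
          lb1 (k + 1) ((V.card : ℝ) - 1) a0 a2 a3 a4 t 0 + t * q := by unfold lb1; ring
      rw [this]; positivity
    · have : lb1 (k + 1) ((V.card : ℝ) - 1) a0 a2 a3 a4 t q =
          lb1 (k + 1) ((V.card : ℝ) - 1) a0 a2 a3 a4 t 0 + t * q := by unfold lb1; ring
      rw [this]; linarith
  · have h := rest_norm (b := k) (V.erase i) (nn x) (by rw [hc]; omega)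
    have h0 : 0 ≤ av (k + 1) (V.erase i) (fun T => (nn x T - av (k + 1) (V.erase i) (nn x) -
        ∑ j ∈ T, cf k (V.erase i) (nn x) j) ^ 2) := av_nonneg fun _ _ _ => sq_nonneg _
    rw [h] at h0
    simp only [nn_sq] at h0
    rw [← hq] at h0
    nlinarith

/-- **Stage A.** -/
theorem stageA {k : ℕ} {V : Finset α} (hk : 1 ≤ k)
    (hn : 2 * (k + 1) ≤ V.card) (hn4 : k + 4 ≤ V.card) (hV : 5 ≤ V.card)
    {β τ γ : ℝ} (hLB : LB α (k + 1) (V.card - (k + 1)) β) (x : α → ℝ) (hx : ∑ j ∈ V, x j = 0)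
    (hP : av (k + 1) V (nn x) < τ) (hτ : τ ≤ ((k : ℝ) + 1) / V.card)
    (hA4 : A4 (k + 1) ((V.card : ℝ) - 1) < 0)
    {a0 a1 a2 a3 a4 t Λ R1 R2 : ℝ} (ha4 : 0 < a4)
    (hP0 : ∀ u : ℝ, 0 ≤ a0 + a1 * u + a2 * u ^ 2 + a3 * u ^ 3 + a4 * u ^ 4)
    (hPt : ∀ u : ℝ, u - t ≤ a0 + a1 * u + a2 * u ^ 2 + a3 * u ^ 3 + a4 * u ^ 4)
    (hΛ : lb1 (k + 1) ((V.card : ℝ) - 1) a0 a2 a3 a4 t 0 ≤ Λ)
    (hΛ0 : 0 ≤ lb1 (k + 1) ((V.card : ℝ) - 1) a0 a2 a3 a4 t 0) (ht : 0 ≤ t)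
    (hR1 : rho1 k (k + 1) ((V.card : ℝ) - 1) ≤ R1)
    (hR2 : rho2 k (k + 1) ((V.card : ℝ) - 1) ≤ R2) (hR : R2 ≤ R1)
    (hnum : ∀ g q : ℝ, γ < g → g < 1 → 0 ≤ q →
      ((V.card : ℝ) - (k + 1)) * q + ((k : ℝ) + 1) * g ≤ V.card * τ →
      q < β ∧ g * (R1 * Lq Λ t q + R2 * (q * (1 - q) - Lq Λ t q)) < (1 - g) * (β - q) ^ 2) :
    ∀ i ∈ V, gi k V x i ≤ γ := by
  intro i hi
  by_contra hcon
  push Not at hcon
  have hN : (5 : ℝ) ≤ V.card := by exact_mod_cast hV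
  have hN0 : (0 : ℝ) < V.card := by linarith
  have hkN : ((k : ℝ) + 1) * 2 ≤ V.card := by exact_mod_cast (by omega : (k + 1) * 2 ≤ V.card)
  have hk0 : (1 : ℝ) ≤ k := by exact_mod_cast hk
  have hk1 : k + 1 ≤ V.card := by omega
  set q := av (k + 1) (V.erase i) (nn x) with hq
  set g := gi k V x i with hg
  have hq0 : 0 ≤ q := av_nonneg fun _ _ _ => nn_nonneg x _
  have hs := good_split hi hk1 x
  rw [← hq, ← hg] at hs
  have hs2 : (V.card : ℝ) * av (k + 1) V (nn x) = ((V.card : ℝ) - (k + 1)) * q +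
      ((k : ℝ) + 1) * g := by
    rw [hs]; field_simp
  have hle : ((V.card : ℝ) - (k + 1)) * q + ((k : ℝ) + 1) * g < V.card * τ := by
    rw [← hs2]; exact mul_lt_mul_of_pos_left hP hN0
  have hτ2 : (V.card : ℝ) * τ ≤ (k : ℝ) + 1 := by
    have := mul_le_mul_of_nonneg_left hτ hN0.le
    rwa [mul_div_cancel₀ _ hN0.ne'] at this
  have hg1 : g < 1 := by
    have h1 : 0 ≤ ((V.card : ℝ) - (k + 1)) * q := mul_nonneg (by linarith) hq0
    by_contra h
    push Not at h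
    nlinarith
  obtain ⟨hqb, hlt⟩ := hnum g q hcon hg1 hq0 hle.le
  have hwg : av k (V.erase i) (bad x i) = 1 - g := by
    have := gi_eq hi hk1 x
    rw [← hg] at this; linarith
  have hm := mix_ineq2 hi hk hn hn4 hLB x hx (by rw [hwg]; linarith) (by rw [← hq]; exact hqb.le)
  rw [hwg, ← hq, show (1 : ℝ) - (1 - g) = g by ring] at hm
  have hL := lv_le_Lq hi hn4 hV x hA4 ha4 hP0 hPt hΛ hΛ0 ht
  rw [← hq] at hL
  have hv0 := lv_nonneg (b := k) (M := V.erase i) (nn x)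
    (by rw [Finset.card_erase_of_mem hi]; omega)
  have hg0 : 0 ≤ g := gi_nonneg x i
  have hLv : Lq Λ t q ≤ q * (1 - q) := min_le_right _ _
  have h3 : rho1 k (k + 1) ((V.card : ℝ) - 1) * lv k (V.erase i) (nn x) +
      rho2 k (k + 1) ((V.card : ℝ) - 1) * (q * (1 - q) - lv k (V.erase i) (nn x)) ≤
      R1 * Lq Λ t q + R2 * (q * (1 - q) - Lq Λ t q) := by
    have e1 := mul_le_mul_of_nonneg_right hR1 hv0
    have e2 := mul_le_mul_of_nonneg_right hR2
      (show 0 ≤ q * (1 - q) - lv k (V.erase i) (nn x) by linarith)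
    nlinarith [mul_nonneg (sub_nonneg.2 hR) (sub_nonneg.2 hL)]
  have h4 := mul_le_mul_of_nonneg_left h3 hg0
  linarith

end Pool.Agent.MMSA
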