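import Pool.Agent.MMSA.Gam

/-!
Numerical forms of stage A: the inequality between `g` and `q` is reduced to two polynomial
inequalities in one variable.
-/

set_option autoImplicit false
set_option linter.unusedSectionVars false

namespace Pool.Agent.MMSA

open Finset Pool.Agent.H59.MMS

variable {α : Type*} [DecidableEq α]

theorem Lq_mono {Λ t q y : ℝ} (hΛ : 0 ≤ Λ) (ht : 0 ≤ t) (hq : 0 ≤ q) (hqy : q ≤ y)
    (hy : y ≤ 1 / 2) : Lq Λ t q ≤ Lq Λ t y := by
  unfold Lq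
  refine min_le_min (pow_le_pow_left₀ (by positivity) ?_ 2) ?_
  · have := mul_le_mul_of_nonneg_left hqy ht
    linarith
  · nlinarith

/-- Monotonicity in `q` of the two sides of the numerical condition. -/
theorem cond_mono {Λ t q y g β R1 R2 : ℝ} (hΛ : 0 ≤ Λ) (ht : 0 ≤ t) (hq : 0 ≤ q) (hqy : q ≤ y)
    (hy : y ≤ 1 / 2) (hyβ : y < β) (hR2 : 0 ≤ R2) (hR : R2 ≤ R1) (hg : 0 ≤ g) (hg1 : g < 1)
    (h : g * (R1 * Lq Λ t y + R2 * (y * (1 - y) - Lq Λ t y)) < (1 - g) * (β - y) ^ 2) :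
    q < β ∧ g * (R1 * Lq Λ t q + R2 * (q * (1 - q) - Lq Λ t q)) < (1 - g) * (β - q) ^ 2 := by
  refine ⟨by linarith, ?_⟩
  have hL := Lq_mono hΛ ht hq hqy hy
  have h1 : R1 * Lq Λ t q + R2 * (q * (1 - q) - Lq Λ t q) ≤
      R1 * Lq Λ t y + R2 * (y * (1 - y) - Lq Λ t y) := by
    have e1 : q * (1 - q) ≤ y * (1 - y) := by nlinarith
    have e2 := mul_le_mul_of_nonneg_left e1 hR2
    nlinarith [mul_nonneg (sub_nonneg.2 hR) (sub_nonneg.2 hL)]
  have h2 : (β - y) ^ 2 ≤ (β - q) ^ 2 := pow_le_pow_left₀ (by linarith) (by linarith) 2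
  have h3 := mul_le_mul_of_nonneg_left h1 hg
  have h4 := mul_le_mul_of_nonneg_left h2 (show 0 ≤ 1 - g by linarith)
  linarith

/-- The condition follows from the bound by the quartic. -/
theorem cond_quartic {Λ t y g β R1 R2 : ℝ} (hR : R2 ≤ R1) (hg : 0 ≤ g)
    (h : g * ((R1 - R2) * (Λ + t * y) ^ 2 + R2 * (y * (1 - y))) < (1 - g) * (β - y) ^ 2) :
    g * (R1 * Lq Λ t y + R2 * (y * (1 - y) - Lq Λ t y)) < (1 - g) * (β - y) ^ 2 := by
  have hL : Lq Λ t y ≤ (Λ + t * y) ^ 2 := min_le_left _ _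
  have := mul_le_mul_of_nonneg_left hL (mul_nonneg hg (sub_nonneg.2 hR))
  nlinarith

/-- The condition follows from the plain mixing bound. -/
theorem cond_plain {Λ t y g β R1 R2 : ℝ} (hR : R2 ≤ R1) (hg : 0 ≤ g)
    (h : g * (R1 * (y * (1 - y))) < (1 - g) * (β - y) ^ 2) :
    g * (R1 * Lq Λ t y + R2 * (y * (1 - y) - Lq Λ t y)) < (1 - g) * (β - y) ^ 2 := by
  have hL : Lq Λ t y ≤ y * (1 - y) := min_le_right _ _
  have := mul_le_mul_of_nonneg_left hL (mul_nonneg hg (sub_nonneg.2 hR))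
  nlinarith

/-- Numerical condition at the final level (`τ = p`): with `r ≥ K / (n - K)` it suffices to check
two inequalities for `y = r (1 - g)`. -/
theorem num_top {n K β γ g2 Λ t R1 R2 r : ℝ} (hK : 0 < K) (hnK : K < n)
    (hr : K ≤ r * (n - K)) (hr1 : r ≤ 1 / 2) (hγ : 0 ≤ γ)
    (hΛ : 0 ≤ Λ) (ht : 0 ≤ t) (hR2 : 0 ≤ R2) (hR : R2 ≤ R1)
    (hβ : r * (1 - γ) < β)
    (h1 : ∀ g : ℝ, γ ≤ g → g ≤ g2 →
      g * ((R1 - R2) * (Λ + t * (r * (1 - g))) ^ 2 + R2 * ((r * (1 - g)) * (1 - r * (1 - g)))) <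
        (1 - g) * (β - r * (1 - g)) ^ 2)
    (h2 : ∀ g : ℝ, γ ≤ g → g2 ≤ g → g ≤ 1 →
      g * (R1 * (r * (1 - r * (1 - g)))) < (β - r * (1 - g)) ^ 2) :
    ∀ g q : ℝ, γ < g → g < 1 → 0 ≤ q → (n - K) * q + K * g ≤ n * (K / n) →
      q < β ∧ g * (R1 * Lq Λ t q + R2 * (q * (1 - q) - Lq Λ t q)) < (1 - g) * (β - q) ^ 2 := by
  intro g q hg hg1 hq hle
  have hn : 0 < n := by linarith
  rw [mul_div_cancel₀ _ hn.ne'] at hle
  have hr0 : 0 < r := by
    by_contra h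
    push Not at h
    nlinarith
  have hqy : q ≤ r * (1 - g) := by
    have e1 : (n - K) * q ≤ K * (1 - g) := by linarith
    have e2 : K * (1 - g) ≤ r * (n - K) * (1 - g) :=
      mul_le_mul_of_nonneg_right hr (by linarith)
    have e3 : (n - K) * q ≤ (n - K) * (r * (1 - g)) := by nlinarith
    exact le_of_mul_le_mul_left e3 (by linarith)
  have hyβ : r * (1 - g) < β := by nlinarith
  have hy : r * (1 - g) ≤ 1 / 2 := by nlinarith
  refine cond_mono hΛ ht hq hqy hy hyβ hR2 hR (by linarith) hg1 ?_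
  rcases le_total g g2 with hc | hc
  · exact cond_quartic hR (by linarith) (h1 g hg.le hc)
  · refine cond_plain hR (by linarith) ?_
    have h := h2 g hg.le hc hg1.le
    have := mul_lt_mul_of_pos_left h (show 0 < 1 - g by linarith)
    nlinarith

/-- Numerical condition at a middle level: `P < τ` with `τ ≤ p`. With `p0 ≤ K / n` and
`y = (τ - p0 g) / (1 - p0)` as upper bound for `q` (valid for `g ≥ τ`). -/
theorem num_mid {n K τ β γ g2 Λ t R1 R2 p0 : ℝ} (hK : 0 < K) (hnK : K < n)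
    (hp0 : p0 * n ≤ K) (hp : 0 ≤ p0) (hp1 : p0 ≤ 1 / 2) (hτγ : τ ≤ γ) (hτ0 : 0 ≤ τ)
    (hΛ : 0 ≤ Λ) (ht : 0 ≤ t) (hR2 : 0 ≤ R2) (hR : R2 ≤ R1)
    (hβ : τ - p0 * γ < β * (1 - p0)) (hτ : τ - p0 * γ ≤ (1 - p0) / 2)
    (h1 : ∀ g y : ℝ, γ ≤ g → g ≤ g2 → g ≤ 1 → y = (τ - p0 * g) / (1 - p0) → 0 ≤ y →
      g * ((R1 - R2) * (Λ + t * y) ^ 2 + R2 * (y * (1 - y))) < (1 - g) * (β - y) ^ 2)
    (h2 : ∀ g y : ℝ, γ ≤ g → g2 ≤ g → g < 1 → y = (τ - p0 * g) / (1 - p0) → 0 ≤ y →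
      g * (R1 * (y * (1 - y))) < (1 - g) * (β - y) ^ 2) :
    ∀ g q : ℝ, γ < g → g < 1 → 0 ≤ q → (n - K) * q + K * g ≤ n * τ →
      q < β ∧ g * (R1 * Lq Λ t q + R2 * (q * (1 - q) - Lq Λ t q)) < (1 - g) * (β - q) ^ 2 := by
  intro g q hg hg1 hq hle
  have hn : 0 < n := by linarith
  set y := (τ - p0 * g) / (1 - p0) with hy
  have h1p : 0 < 1 - p0 := by linarith
  have hyy : y * (1 - p0) = τ - p0 * g := by rw [hy]; field_simp
  have hqy : q ≤ y := by
    -- (1-p) q ≤ τ - p g with p = K/n ≥ p0 and g ≥ τ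
    have hgτ : τ ≤ g := by linarith
    have hp' : p0 ≤ K / n := by rw [le_div_iff₀ hn]; exact hp0
    have hp'1 : K / n < 1 := by rw [div_lt_one hn]; exact hnK
    have e1 : (1 - K / n) * q ≤ τ - K / n * g := by
      have : (n - K) * q + K * g = n * ((1 - K / n) * q + K / n * g) := by field_simp
      rw [this] at hle
      have := le_of_mul_le_mul_left hle hn
      linarith
    -- q (1-p0)(1-p) ≤ (τ - p g)(1-p0) ≤ (τ - p0 g)(1-p)
    have e2 : q * (1 - p0) * (1 - K / n) ≤ (τ - p0 * g) * (1 - K / n) := by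
      have e3 : (1 - K / n) * q * (1 - p0) ≤ (τ - K / n * g) * (1 - p0) :=
        mul_le_mul_of_nonneg_right e1 h1p.le
      have e4 : (τ - K / n * g) * (1 - p0) ≤ (τ - p0 * g) * (1 - K / n) := by
        nlinarith [mul_nonneg (sub_nonneg.2 hp') (sub_nonneg.2 hgτ)]
      nlinarith
    have e5 := le_of_mul_le_mul_right e2 (by linarith : 0 < 1 - K / n)
    rw [← hyy] at e5
    exact le_of_mul_le_mul_right e5 h1p
  have hy0 : 0 ≤ y := hq.trans hqy
  have hyβ : y < β := by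
    have : y * (1 - p0) < β * (1 - p0) := by
      rw [hyy]
      nlinarith [mul_le_mul_of_nonneg_left hg.le hp]
    exact lt_of_mul_lt_mul_right this h1p.le
  have hyh : y ≤ 1 / 2 := by
    have : y * (1 - p0) ≤ (1 / 2) * (1 - p0) := by
      rw [hyy]
      nlinarith [mul_le_mul_of_nonneg_left hg.le hp]
    exact le_of_mul_le_mul_right this h1p
  refine cond_mono hΛ ht hq hqy hyh hyβ hR2 hR (by linarith) hg1 ?_
  rcases le_total g g2 with hc | hc
  · exact cond_quartic hR (by linarith) (h1 g y hg.le hc hg1.le hy hy0)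
  · exact cond_plain hR (by linarith) (h2 g y hg.le hc hg1 hy hy0)

/-- `rho1 ≤ r ^ 2`. -/
theorem rho1_le {n K r : ℝ} (hK : 1 ≤ K) (hn : K + 1 < n) (hr : K ≤ r * (n - K))
    (h2K : 2 * K ≤ n) : rho1 (K - 1) K (n - 1) ≤ r ^ 2 := by
  unfold rho1
  have h1 : 0 < n - K := by linarith
  have h2 : 0 < n - K - 1 := by linarith
  have hr0 : 0 < r := by
    by_contra h; push Not at h; nlinarith
  have e1 : K / (n - K) ≤ r := by rw [div_le_iff₀ h1]; exact hr
  have e2 : (K - 1) / (n - K - 1) ≤ r := by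
    rw [div_le_iff₀ h2]
    have : r ≤ 1 ∨ 1 < r := le_or_gt r 1
    rcases this with h | h
    · nlinarith
    · nlinarith
  have e3 : (K - 1) * K / ((n - 1 - (K - 1)) * (n - 1 - K)) =
      (K / (n - K)) * ((K - 1) / (n - K - 1)) := by
    rw [show n - 1 - (K - 1) = n - K by ring, show n - 1 - K = n - K - 1 by ring]
    field_simp
  rw [e3, pow_two]
  exact mul_le_mul e1 e2 (div_nonneg (by linarith) h2.le) hr0.le

/-- `rho2 ≤ r ^ 4`. -/
theorem rho2_le {n K r : ℝ} (hK : 2 ≤ K) (hn : K + 2 < n) (hr : K ≤ r * (n - K))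
    (h2K : 2 * K ≤ n) : rho2 (K - 1) K (n - 1) ≤ r ^ 4 := by
  have h0 := rho1_le (by linarith) (by linarith) hr h2K
  have h1 : 0 < n - K := by linarith
  have h2 : 0 < n - K - 1 := by linarith
  have h3 : 0 < n - K - 2 := by linarith
  have hr0 : 0 < r := by
    by_contra h; push Not at h; nlinarith
  have e0 : K / (n - K) ≤ r := by rw [div_le_iff₀ h1]; exact hr
  have hK1 : K / (n - K) ≤ 1 := by rw [div_le_one h1]; linarith
  have e1 : (K - 1) / (n - K - 1) ≤ r := by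
    refine le_trans ?_ e0
    rw [div_le_div_iff₀ h2 h1]
    nlinarith
  have e2 : (K - 2) / (n - K - 2) ≤ r := by
    refine le_trans ?_ e0
    rw [div_le_div_iff₀ h3 h1]
    nlinarith
  have e3 : rho2 (K - 1) K (n - 1) = rho1 (K - 1) K (n - 1) *
      (((K - 1) / (n - K - 1)) * ((K - 2) / (n - K - 2))) := by
    unfold rho1 rho2
    rw [show n - 1 - (K - 1) = n - K by ring, show n - 1 - K = n - K - 1 by ring,
      show n - K - 1 - 1 = n - K - 2 by ring]
    field_simp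
    ring
  have e4 : ((K - 1) / (n - K - 1)) * ((K - 2) / (n - K - 2)) ≤ r * r :=
    mul_le_mul e1 e2 (div_nonneg (by linarith) h3.le) hr0.le
  have e5 : 0 ≤ ((K - 1) / (n - K - 1)) * ((K - 2) / (n - K - 2)) :=
    mul_nonneg (div_nonneg (by linarith) h2.le) (div_nonneg (by linarith) h3.le)
  rw [e3, show r ^ 4 = r ^ 2 * (r * r) by ring]
  exact mul_le_mul h0 e4 e5 (by positivity)

/-- The constant of the level-one inequality in terms of `N` and `K`. -/
theorem lb1_zero_le {N K a0 a2 a3 a4 t c4 c3 Λ : ℝ} (hN : 4 ≤ N) (hK : 1 ≤ K) (hKN : K + 1 ≤ N)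
    (ha4 : 0 < a4) (hA : N * (N + 1) < 6 * K * (N - K))
    (h4 : 3 * (K - 1) * (N - K - 1) * (N * (N - 1)) ≤ c4 * (K * (N - K) * ((N - 2) * (N - 3))))
    (h3 : (N - 2 * K) ^ 2 * (N - 3) ≤ c3 * ((N - 2) * (6 * K * (N - K) - N * (N + 1))))
    (hΛ : a0 + a2 + a4 * c4 + a3 ^ 2 / (4 * a4) * c3 ≤ Λ) :
    lb1 K N a0 a2 a3 a4 t 0 ≤ Λ := by
  have hK0 : 0 < K := by linarith
  have hNK : 0 < N - K := by linarith
  have hN0 : 0 < N := by linarith
  have hN1 : 0 < N - 1 := by linarith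
  have hN2 : 0 < N - 2 := by linarith
  have hN3 : 0 < N - 3 := by linarith
  have hD : 0 < 6 * K * (N - K) - N * (N + 1) := by linarith
  have e4 : A22 K N / A2 K N ^ 2 ≤ c4 := by
    have : A22 K N / A2 K N ^ 2 = 3 * (K - 1) * (N - K - 1) * (N * (N - 1)) /
        (K * (N - K) * ((N - 2) * (N - 3))) := by
      unfold A22 A2
      field_simp
    rw [this, div_le_iff₀ (by positivity)]
    exact h4
  have e3 : (a3 * A3 K N) ^ 2 / (4 * a4 * (-A4 K N) * A2 K N) ≤ a3 ^ 2 / (4 * a4) * c3 := by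
    have : (a3 * A3 K N) ^ 2 / (4 * a4 * (-A4 K N) * A2 K N) = a3 ^ 2 / (4 * a4) *
        ((N - 2 * K) ^ 2 * (N - 3) / ((N - 2) * (6 * K * (N - K) - N * (N + 1)))) := by
      have hneg : -A4 K N = K * (N - K) * (6 * K * (N - K) - N * (N + 1)) /
          (N * (N - 1) * (N - 2) * (N - 3)) := by
        unfold A4
        rw [← neg_div]
        congr 1
        ring
      rw [hneg]
      unfold A3 A2
      field_simp
    rw [this]
    refine mul_le_mul_of_nonneg_left ?_ (by positivity)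
    rw [div_le_iff₀ (by positivity)]
    exact h3
  unfold lb1
  have := mul_le_mul_of_nonneg_left e4 ha4.le
  linarith

theorem A4_neg {N K : ℝ} (hN : 4 ≤ N) (hK : 1 ≤ K) (hKN : K + 1 ≤ N)
    (hA : N * (N + 1) < 6 * K * (N - K)) : A4 K N < 0 := by
  unfold A4
  refine div_neg_of_neg_of_pos ?_ ?_
  · exact mul_neg_of_pos_of_neg (mul_pos (by linarith) (by linarith)) (by linarith)
  · exact mul_pos (mul_pos (mul_pos (by linarith) (by linarith)) (by linarith)) (by linarith)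

end Pool.Agent.MMSA
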