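import Pool.Agent.MMSA.Proj
import Pool.Agent.MMSA.DnC

/-!
The disjointness operator with the exact level-one weight, and the down operator.

PLAN. Write `h = q + F + g` with `F T = ∑ j ∈ T, cf j` and `g` the rest (`rest_level`). On an
`a`-subset `A`: `av (b+1) (M \ A) F = -((b+1)/(N-a)) ∑ j ∈ A, cf j` (`mom1` on `M \ A` and
`sum_cf`). So `av (b+1) (M \ A) h - q = -((b+1)/(N-a)) L A + G A`, `L A = ∑ j ∈ A, cf j`,
`G A = av (b+1) (M \ A) g`. The square has the average
`((b+1)/(N-a))^2 A2 a N ∑ cf^2 + av (G^2)`; the cross term vanishes because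
`av a M (L G)` is a multiple of `av (b+1) M (F g)` (swap the order of the two disjoint sets: the
average of `L A g T` over disjoint pairs, `av_disj_swap`), and `av (b+1) M (F g) = 0` by
`av_mul_lin` (`cf` of `g` is zero) . Finally `((b+1)/(N-a))^2 A2 a N = rho1 a (b+1) N * A2 (b+1) N`
and `disj_level2` for `g`, `rest_norm`.
-/

set_option autoImplicit false
set_option linter.unusedSectionVars false

namespace Pool.Agent.MMSA

open Finset Pool.Agent.H59.MMS

variable {α : Type*} [DecidableEq α]

private lemma choose_swap {N a b : ℕ} (h : a + b ≤ N) :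
    N.choose a * (N - a).choose b = N.choose b * (N - b).choose a := by
  have h1 := Nat.choose_mul (n := N) (k := a + b) (s := a) (by omega)
  have h2 := Nat.choose_mul (n := N) (k := a + b) (s := b) (by omega)
  rw [show a + b - a = b by omega] at h1
  rw [show a + b - b = a by omega] at h2
  rw [← h1, ← h2]
  congr 1
  exact Nat.choose_symm_add

/-- Averages over ordered pairs of disjoint sets do not depend on the order. -/
theorem av_disj_swap (a b : ℕ) (M : Finset α) (u v : Finset α → ℝ) (h : a + b ≤ M.card) :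
    av a M (fun A => u A * av b (M \ A) v) = av b M (fun B => v B * av a (M \ B) u) := by
  have hca : ((M.card.choose a : ℕ) : ℝ) ≠ 0 := by
    exact_mod_cast (Nat.choose_pos (by omega)).ne'
  have hcb : ((M.card.choose b : ℕ) : ℝ) ≠ 0 := by
    exact_mod_cast (Nat.choose_pos (by omega)).ne'
  have hcab : (((M.card - a).choose b : ℕ) : ℝ) ≠ 0 := by
    exact_mod_cast (Nat.choose_pos (by omega)).ne'
  have hcba : (((M.card - b).choose a : ℕ) : ℝ) ≠ 0 := by
    exact_mod_cast (Nat.choose_pos (by omega)).ne'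
  have key : ∀ (a b : ℕ) (u v : Finset α → ℝ), av a M (fun A => u A * av b (M \ A) v) =
      (∑ A ∈ M.powersetCard a, ∑ B ∈ (M \ A).powersetCard b, u A * v B) /
        ((M.card.choose a : ℝ) * ((M.card - a).choose b : ℝ)) := by
    intro a b u v
    unfold av
    rw [mul_comm (M.card.choose a : ℝ), ← div_div]
    congr 1
    rw [Finset.sum_div]
    refine Finset.sum_congr rfl fun A hA => ?_
    rw [Finset.mem_powersetCard] at hA
    beta_reduce
    rw [Finset.card_sdiff_of_subset hA.1, hA.2, ← Finset.mul_sum, mul_div_assoc]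
  rw [key, key]
  congr 1
  · rw [Finset.sum_comm' (s := M.powersetCard a) (t := fun A => (M \ A).powersetCard b)
      (t' := M.powersetCard b) (s' := fun B => (M \ B).powersetCard a)]
    · refine Finset.sum_congr rfl fun B _ => Finset.sum_congr rfl fun A _ => mul_comm _ _
    · intro A B
      simp only [Finset.mem_powersetCard]
      constructor
      · rintro ⟨⟨h1, h2⟩, h3, h4⟩
        refine ⟨⟨?_, h2⟩, fun x hx => (Finset.mem_sdiff.1 (h3 hx)).1, h4⟩
        intro x hx
        refine Finset.mem_sdiff.2 ⟨h1 hx, fun hxB => ?_⟩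
        exact (Finset.mem_sdiff.1 (h3 hxB)).2 hx
      · rintro ⟨⟨h1, h2⟩, h3, h4⟩
        refine ⟨⟨fun x hx => (Finset.mem_sdiff.1 (h1 hx)).1, h2⟩, ?_, h4⟩
        intro x hx
        refine Finset.mem_sdiff.2 ⟨h3 hx, fun hxA => ?_⟩
        exact (Finset.mem_sdiff.1 (h1 hxA)).2 hx
  · exact_mod_cast choose_swap h

private lemma mom2_cf {b : ℕ} (M : Finset α) (h : Finset α → ℝ) (hb : b + 2 ≤ M.card) {k : ℕ}
    (hk : k ≤ M.card) :
    av k M (fun S => (∑ j ∈ S, cf b M h j) ^ 2) = A2 k M.card * ∑ j ∈ M, cf b M h j ^ 2 := by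
  have hN2 : (2 : ℝ) ≤ M.card := by exact_mod_cast (by omega : 2 ≤ M.card)
  have hN0 : (M.card : ℝ) ≠ 0 := by linarith
  have hN1 : (M.card : ℝ) - 1 ≠ 0 := by
    intro h
    linarith
  rw [mom2 hk (by omega), sum_cf M h hb]
  unfold A2
  field_simp
  ring

/-- the rest is orthogonal to the level-one part -/
private lemma av_rest_lin {b : ℕ} (M : Finset α) (h : Finset α → ℝ) (hb : b + 2 ≤ M.card) :
    av (b + 1) M (fun T => (h T - av (b + 1) M h - ∑ j ∈ T, cf b M h j) *
      ∑ j ∈ T, cf b M h j) = 0 := by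
  have e : (fun T => (h T - av (b + 1) M h - ∑ j ∈ T, cf b M h j) * ∑ j ∈ T, cf b M h j) =
      fun T => (h T * ∑ j ∈ T, cf b M h j - av (b + 1) M h * ∑ j ∈ T, cf b M h j) -
        (∑ j ∈ T, cf b M h j) ^ 2 := by
    funext T; ring
  rw [e, av_sub, av_sub, av_mul, av_mul_lin M h hb _ (sum_cf M h hb),
    mom1 (by omega) (by omega), sum_cf M h hb, mom2_cf M h hb (by omega)]
  have e2 : ∑ j ∈ M, cf b M h j * cf b M h j = ∑ j ∈ M, cf b M h j ^ 2 :=
    Finset.sum_congr rfl fun j _ => by ring
  rw [e2]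
  push_cast
  ring

/-- the average of the rest -/
private lemma av_rest {b : ℕ} (M : Finset α) (h : Finset α → ℝ) (hb : b + 2 ≤ M.card) :
    av (b + 1) M (fun T => h T - av (b + 1) M h - ∑ j ∈ T, cf b M h j) = 0 := by
  rw [av_sub, av_sub, av_const (by omega), mom1 (by omega) (by omega), sum_cf M h hb]
  ring

/-- The disjointness operator with the exact level-one weight. -/
theorem mixing2 {a b : ℕ} (M : Finset α) (h : Finset α → ℝ) (hab : a + (b + 1) ≤ M.card)
    (ha : 1 ≤ a) (ha2 : a + 2 ≤ M.card) (hb2 : b + 3 ≤ M.card) :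
    av a M (fun A => (av (b + 1) (M \ A) h - av (b + 1) M h) ^ 2) ≤
      rho1 a (b + 1) M.card * lv b M h +
      rho2 a (b + 1) M.card *
        (av (b + 1) M (fun T => h T ^ 2) - av (b + 1) M h ^ 2 - lv b M h) := by
  have hb : b + 2 ≤ M.card := by omega
  have hab' : (a : ℝ) + (b + 1) ≤ M.card := by exact_mod_cast hab
  have ha2' : (a : ℝ) + 2 ≤ M.card := by exact_mod_cast ha2
  have hb2' : (b : ℝ) + 3 ≤ M.card := by exact_mod_cast hb2
  have ha' : (1 : ℝ) ≤ a := by exact_mod_cast ha
  have hb' : (0 : ℝ) ≤ b := Nat.cast_nonneg b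
  have hN0 : (M.card : ℝ) ≠ 0 := by linarith
  have hN1 : (M.card : ℝ) - 1 ≠ 0 := by
    intro h
    linarith
  have hNa : (M.card : ℝ) - a ≠ 0 := by
    intro h
    linarith
  have hNb : (M.card : ℝ) - (b + 1) ≠ 0 := by
    intro h
    linarith
  set g : Finset α → ℝ := fun T => h T - av (b + 1) M h - ∑ j ∈ T, cf b M h j with hg
  set L : Finset α → ℝ := fun T => ∑ j ∈ T, cf b M h j with hL
  set G : Finset α → ℝ := fun A => av (b + 1) (M \ A) g with hG
  -- the decomposition
  have hcard : ∀ A : Finset α, A ⊆ M → ((M \ A).card : ℝ) = M.card - A.card := by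
    intro A hA
    rw [Finset.card_sdiff_of_subset hA, Nat.cast_sub (Finset.card_le_card hA)]
  have hsd : ∀ A : Finset α, A ⊆ M → ∑ j ∈ M \ A, cf b M h j = - L A := by
    intro A hA
    have h1 := Finset.sum_sdiff (f := fun j => cf b M h j) hA
    rw [sum_cf M h hb] at h1
    simp only [hL]
    linarith
  have hdec : ∀ A : Finset α, A ⊆ M → A.card = a →
      av (b + 1) (M \ A) h - av (b + 1) M h = -(((b : ℝ) + 1) / (M.card - a)) * L A + G A := by
    intro A hA hc
    have hcA : (M \ A).card = M.card - a := by rw [Finset.card_sdiff_of_subset hA, hc]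
    have h1 : av (b + 1) (M \ A) h = av (b + 1) (M \ A)
        (fun T => (g T + av (b + 1) M h) + ∑ j ∈ T, cf b M h j) := by
      refine av_congr fun T _ _ => ?_
      simp only [hg]
      ring
    rw [h1, av_add, av_add, av_const (by rw [hcA]; omega), mom1 (by rw [hcA]; omega)
      (by rw [hcA]; omega), hsd A hA, hcard A hA, hc]
    simp only [hG]
    push_cast
    ring
  have h2 : av a M (fun A => (av (b + 1) (M \ A) h - av (b + 1) M h) ^ 2) =
      av a M (fun A => (((((b : ℝ) + 1) / (M.card - a)) ^ 2 * L A ^ 2) -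
        (2 * (((b : ℝ) + 1) / (M.card - a))) * (L A * G A)) + G A ^ 2) := by
    refine av_congr fun A hA hc => ?_
    rw [hdec A hA hc]
    ring
  -- the cross term
  have h3 : av a M (fun A => L A * G A) = 0 := by
    simp only [hG]
    rw [av_disj_swap a (b + 1) M L g hab]
    have h4 : av (b + 1) M (fun B => g B * av a (M \ B) L) =
        av (b + 1) M (fun B => (-((a : ℝ) / (M.card - (b + 1)))) * (g B * L B)) := by
      refine av_congr fun B hB hc => ?_
      have hcB : (M \ B).card = M.card - (b + 1) := by rw [Finset.card_sdiff_of_subset hB, hc]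
      have h5 : av a (M \ B) L = (a : ℝ) / ((M \ B).card : ℝ) * ∑ j ∈ M \ B, cf b M h j :=
        mom1 (by rw [hcB]; omega) (by rw [hcB]; omega) _
      rw [h5, hsd B hB, hcard B hB, hc]
      push_cast
      ring
    rw [h4, av_mul]
    have h6 := av_rest_lin M h hb
    simp only [hg, hL]
    rw [h6, mul_zero]
  rw [h2, av_add, av_sub, av_mul, av_mul, h3, mul_zero, sub_zero]
  have h7 : av a M (fun A => L A ^ 2) = A2 a M.card * ∑ j ∈ M, cf b M h j ^ 2 :=
    mom2_cf M h hb (by omega)
  have h8 : av a M (fun A => G A ^ 2) ≤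
      rho2 a (b + 1) M.card * av (b + 1) M (fun T => g T ^ 2) :=
    disj_level2 M g hab ha ha2 hb2 (rest_level M h hb)
  have h9 : av (b + 1) M (fun T => g T ^ 2) =
      av (b + 1) M (fun T => h T ^ 2) - av (b + 1) M h ^ 2 - lv b M h := rest_norm M h hb
  rw [h9] at h8
  have h10 : (((b : ℝ) + 1) / (M.card - a)) ^ 2 * (A2 a M.card * ∑ j ∈ M, cf b M h j ^ 2) =
      rho1 a (b + 1) M.card * lv b M h := by
    unfold rho1 lv A2
    field_simp
  rw [h7, h10]
  linarith

/-- The one-step down operator with the exact level-one weight. -/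
theorem down2 {b : ℕ} (M : Finset α) (h : Finset α → ℝ) (hb : b + 2 ≤ M.card) :
    av b M (fun R => ((∑ x ∈ M \ R, h (insert x R)) / ((M.card : ℝ) - b)) ^ 2) ≤
      av (b + 1) M h ^ 2 +
      ((b : ℝ) * ((M.card : ℝ) - b - 1) / ((b + 1) * ((M.card : ℝ) - b))) * lv b M h +
      (((b : ℝ) - 1) * ((M.card : ℝ) - b - 2) / ((b + 1) * ((M.card : ℝ) - b))) *
        (av (b + 1) M (fun T => h T ^ 2) - av (b + 1) M h ^ 2 - lv b M h) := by
  have hbr : (b : ℝ) + 2 ≤ M.card := by exact_mod_cast hb
  have hb' : (0 : ℝ) ≤ b := Nat.cast_nonneg b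
  have hb1 : (b : ℝ) + 1 ≠ 0 := by positivity
  have hN0 : (M.card : ℝ) ≠ 0 := by linarith
  have hN1 : (M.card : ℝ) - 1 ≠ 0 := by
    intro h
    linarith
  have hNb : (M.card : ℝ) - b ≠ 0 := by
    intro h
    linarith
  set q : ℝ := av (b + 1) M h with hq
  set g : Finset α → ℝ := fun T => h T - q - ∑ j ∈ T, cf b M h j with hg
  set L : Finset α → ℝ := fun T => ∑ j ∈ T, cf b M h j with hL
  set G : Finset α → ℝ := fun R => (∑ x ∈ M \ R, g (insert x R)) / ((M.card : ℝ) - b) with hG
  set μ : ℝ := ((M.card : ℝ) - b - 1) / ((M.card : ℝ) - b) with hμ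
  have hsd : ∀ A : Finset α, A ⊆ M → ∑ j ∈ M \ A, cf b M h j = - L A := by
    intro A hA
    have h1 := Finset.sum_sdiff (f := fun j => cf b M h j) hA
    rw [sum_cf M h hb] at h1
    simp only [hL]
    linarith
  have hdec : ∀ R : Finset α, R ⊆ M → R.card = b →
      (∑ x ∈ M \ R, h (insert x R)) / ((M.card : ℝ) - b) = q + μ * L R + G R := by
    intro R hR hc
    have h1 : ∀ x ∈ M \ R, h (insert x R) = g (insert x R) + (q + L R) + cf b M h x := by
      intro x hx
      have hxR : x ∉ R := (Finset.mem_sdiff.1 hx).2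
      simp only [hg, hL]
      rw [Finset.sum_insert hxR]
      ring
    rw [Finset.sum_congr rfl h1, Finset.sum_add_distrib, Finset.sum_add_distrib, hsd R hR,
      Finset.sum_const, nsmul_eq_mul, Finset.card_sdiff_of_subset hR,
      Nat.cast_sub (Finset.card_le_card hR), hc]
    simp only [hG, hμ]
    field_simp
    ring
  have h2 : av b M (fun R => ((∑ x ∈ M \ R, h (insert x R)) / ((M.card : ℝ) - b)) ^ 2) =
      av b M (fun R => ((((q ^ 2 + (2 * q * μ) * L R) + (2 * q) * G R) + μ ^ 2 * L R ^ 2) +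
        (2 * μ) * (L R * G R)) + G R ^ 2) := by
    refine av_congr fun R hR hc => ?_
    rw [hdec R hR hc]
    ring
  have hL0 : av b M L = 0 := by
    have := mom1 (k := b) (V := M) (by omega) (by omega) (fun j => cf b M h j)
    rw [sum_cf M h hb, mul_zero] at this
    exact this
  -- averages of `G`
  have hpeel : ∀ k : Finset α → ℝ, av b M (fun R => (∑ x ∈ M \ R, k (insert x R)) /
      ((M.card : ℝ) - b)) = av (b + 1) M k := by
    intro k
    have h3 := av_avoid (k := b) (V := M) (by omega) (fun x R => k (insert x R))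
    have h4 := av_peel' (k := b) (V := M) (by omega) k
    rw [h4, h3]
    have e : (fun R => (∑ x ∈ M \ R, k (insert x R)) / ((M.card : ℝ) - b)) =
        fun R => ((M.card : ℝ) - b)⁻¹ * ∑ x ∈ M \ R, k (insert x R) := by
      funext R
      rw [div_eq_inv_mul]
    rw [e, av_mul, div_eq_inv_mul]
  have hG0 : av b M G = 0 := by
    have h3 := hpeel g
    have h4 : av (b + 1) M g = 0 := av_rest M h hb
    rw [h4] at h3
    exact h3
  have hLG : av b M (fun R => L R * G R) = 0 := by
    have h3 := hpeel (fun T => g T * L T)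
    have h4 : av (b + 1) M (fun T => g T * L T) = 0 := av_rest_lin M h hb
    rw [h4] at h3
    have h5 : av b M (fun R => (∑ x ∈ M \ R, (fun T => g T * L T) (insert x R)) /
        ((M.card : ℝ) - b)) = av b M (fun R => L R * G R +
          ((M.card : ℝ) - b)⁻¹ * ∑ x ∈ M \ R, cf b M h x * g (insert x R)) := by
      refine av_congr fun R hR hc => ?_
      have h6 : ∀ x ∈ M \ R, (fun T => g T * L T) (insert x R) =
          L R * g (insert x R) + cf b M h x * g (insert x R) := by
        intro x hx
        have hxR : x ∉ R := (Finset.mem_sdiff.1 hx).2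
        have h7 : L (insert x R) = cf b M h x + L R := by
          simp only [hL]
          rw [Finset.sum_insert hxR]
        change g (insert x R) * L (insert x R) = _
        rw [h7]
        ring
      rw [Finset.sum_congr rfl h6, Finset.sum_add_distrib, ← Finset.mul_sum]
      simp only [hG]
      field_simp
    rw [h5, av_add, av_mul] at h3
    have h8 := av_avoid (k := b) (V := M) (by omega) (fun x R => cf b M h x * g (insert x R))
    have h9 : ∑ i ∈ M, av b (M.erase i) (fun R => cf b M h i * g (insert i R)) = 0 := by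
      refine Finset.sum_eq_zero fun i hi => ?_
      rw [av_mul]
      have : av b (M.erase i) (fun R => g (insert i R)) = 0 := rest_level M h hb i hi
      rw [this, mul_zero]
    rw [h9, zero_div] at h8
    have h10 : av b M (fun R => ∑ x ∈ M \ R, cf b M h x * g (insert x R)) = 0 := by
      rcases div_eq_zero_iff.1 h8.symm with h | h
      · exact h
      · exact absurd h hNb
    rw [h10, mul_zero, add_zero] at h3
    exact h3
  rw [h2, av_add, av_add, av_add, av_add, av_add, av_const (by omega), av_mul, av_mul, av_mul,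
    av_mul, hG0, hL0, hLG]
  have h7 : av b M (fun A => L A ^ 2) = A2 b M.card * ∑ j ∈ M, cf b M h j ^ 2 :=
    mom2_cf M h hb (by omega)
  have h8 : av b M (fun R => G R ^ 2) ≤
      (((b : ℝ) - 1) * ((M.card : ℝ) - b - 2) / ((b + 1) * ((M.card : ℝ) - b))) *
        av (b + 1) M (fun T => g T ^ 2) := down_level2 M g hb (rest_level M h hb)
  have h9 : av (b + 1) M (fun T => g T ^ 2) =
      av (b + 1) M (fun T => h T ^ 2) - q ^ 2 - lv b M h := rest_norm M h hb
  rw [h9] at h8
  have h10 : μ ^ 2 * (A2 b M.card * ∑ j ∈ M, cf b M h j ^ 2) =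
      ((b : ℝ) * ((M.card : ℝ) - b - 1) / ((b + 1) * ((M.card : ℝ) - b))) * lv b M h := by
    unfold lv A2
    simp only [hμ]
    field_simp
    ring
  rw [h7, h10]
  linarith

end Pool.Agent.MMSA
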