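import Pool.Agent.MMSA.Defs

/-!
Splitting a function on `(b+1)`-subsets of `M` into level zero, level one and the rest.

PLAN. `N = |M|`, `q = av (b+1) M h`, `q_i = av b (M.erase i) (fun T => h (insert i T))`.
* `sum_cf`: `av_peel` of H59 (the average over `i` of `q_i` is `q`).
* `av_mul_lin`: `av (b+1) M (fun T => h T * ∑ j ∈ T, c j) = ((b+1)/N) ∑ j, c j q_j` (`av_peel`),
  insert `q_j = q + ((N-b-1)/(N-1)) cf_j` and use `∑ c = 0`;
  `((b+1)/N) ((N-b-1)/(N-1)) = A2 (b+1) N`.
* `rest_level`: the average over the sets through `i` of `∑ j ∈ U, cf j` is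
  `cf i + (b/(N-1)) ∑ j ≠ i, cf j = cf i (1 - b/(N-1)) = ((N-1-b)/(N-1)) cf i = q_i - q`.
* `rest_norm`: expand the square, `av_mul_lin` with `c = cf`, `mom1`, `mom2` for `∑ j ∈ T, cf j`.
-/

set_option autoImplicit false
set_option linter.unusedSectionVars false

namespace Pool.Agent.MMSA

open Finset Pool.Agent.H59.MMS

variable {α : Type*} [DecidableEq α]

private theorem card_facts {b : ℕ} {M : Finset α} (hb : b + 2 ≤ M.card) :
    (M.card : ℝ) ≠ 0 ∧ (M.card : ℝ) - 1 ≠ 0 ∧ (M.card : ℝ) - (b + 1) ≠ 0 := by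
  have h1 : (b : ℝ) + 2 ≤ M.card := by exact_mod_cast hb
  have h2 : (0 : ℝ) ≤ b := Nat.cast_nonneg b
  refine ⟨?_, ?_, ?_⟩ <;> intro h3 <;> linarith

private theorem sum_q {b : ℕ} (M : Finset α) (h : Finset α → ℝ) (hb : b + 2 ≤ M.card) :
    ∑ j ∈ M, av b (M.erase j) (fun T => h (insert j T)) = M.card * av (b + 1) M h := by
  obtain ⟨h0, -, -⟩ := card_facts hb
  rw [av_peel' (by omega)]
  field_simp

private theorem q_eq {b : ℕ} (M : Finset α) (h : Finset α → ℝ) (hb : b + 2 ≤ M.card) (j : α) :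
    av b (M.erase j) (fun T => h (insert j T)) = av (b + 1) M h +
      (((M.card : ℝ) - (b + 1)) / (M.card - 1)) * cf b M h j := by
  obtain ⟨h0, h1, h2⟩ := card_facts hb
  unfold cf
  field_simp
  ring

/-- The coefficients sum to zero. -/
theorem sum_cf {b : ℕ} (M : Finset α) (h : Finset α → ℝ) (hb : b + 2 ≤ M.card) :
    ∑ j ∈ M, cf b M h j = 0 := by
  unfold cf
  rw [← Finset.mul_sum, Finset.sum_sub_distrib, sum_q M h hb, Finset.sum_const, nsmul_eq_mul,
    sub_self, mul_zero]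

/-- Pairing with a centred linear function sees only the level-one part. -/
theorem av_mul_lin {b : ℕ} (M : Finset α) (h : Finset α → ℝ) (hb : b + 2 ≤ M.card) (c : α → ℝ)
    (hc : ∑ j ∈ M, c j = 0) :
    av (b + 1) M (fun T => h T * ∑ j ∈ T, c j) =
      A2 (b + 1) M.card * ∑ j ∈ M, cf b M h j * c j := by
  obtain ⟨h0, h1, h2⟩ := card_facts hb
  have e1 : av (b + 1) M (fun T => h T * ∑ j ∈ T, c j) =
      av (b + 1) M (fun T => (∑ j ∈ T, c j) * h T) :=
    av_congr fun S _ _ => mul_comm _ _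
  rw [e1, av_sum_mul (by omega)]
  have e2 : ∀ i ∈ M, c i * av b (M.erase i) (fun S => h (insert i S)) =
      av (b + 1) M h * c i + (((M.card : ℝ) - (b + 1)) / (M.card - 1)) * (cf b M h i * c i) := by
    intro i _
    rw [q_eq M h hb i]
    ring
  rw [Finset.sum_congr rfl e2, Finset.sum_add_distrib, ← Finset.mul_sum, ← Finset.mul_sum, hc]
  unfold A2
  field_simp
  ring

/-- The rest has no level-one part. -/
theorem rest_level {b : ℕ} (M : Finset α) (h : Finset α → ℝ) (hb : b + 2 ≤ M.card) :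
    ∀ i ∈ M, av b (M.erase i) (fun T => h (insert i T) - av (b + 1) M h -
      ∑ j ∈ insert i T, cf b M h j) = 0 := by
  intro i hi
  obtain ⟨h0, h1, h2⟩ := card_facts hb
  have hcard : (M.erase i).card = M.card - 1 := Finset.card_erase_of_mem hi
  have e1 : av b (M.erase i) (fun T => h (insert i T) - av (b + 1) M h -
      ∑ j ∈ insert i T, cf b M h j) =
      av b (M.erase i) (fun T => h (insert i T) - (av (b + 1) M h + cf b M h i) -
        ∑ j ∈ T, cf b M h j) := by
    refine av_congr fun S hS _ => ?_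
    rw [sum_insert_of_sub hS]
    ring
  rw [e1, av_sub, av_sub, av_const (by omega), mom1 (by omega) (by omega), card_erase_cast hi,
    sum_erase_one hi, sum_cf M h hb, q_eq M h hb i]
  field_simp
  ring

/-- Pythagoras. -/
theorem rest_norm {b : ℕ} (M : Finset α) (h : Finset α → ℝ) (hb : b + 2 ≤ M.card) :
    av (b + 1) M (fun T => (h T - av (b + 1) M h - ∑ j ∈ T, cf b M h j) ^ 2) =
      av (b + 1) M (fun T => h T ^ 2) - av (b + 1) M h ^ 2 - lv b M h := by
  obtain ⟨h0, h1, h2⟩ := card_facts hb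
  set q := av (b + 1) M h with hq
  have e1 : av (b + 1) M (fun T => (h T - q - ∑ j ∈ T, cf b M h j) ^ 2) =
      av (b + 1) M (fun T => (((h T ^ 2 + (-2 * q) * h T) + (∑ j ∈ T, cf b M h j) ^ 2) +
        (-2) * (h T * ∑ j ∈ T, cf b M h j)) + ((2 * q) * (∑ j ∈ T, cf b M h j) + q ^ 2)) :=
    av_congr fun S _ _ => by ring
  have hs := sum_cf M h hb
  rw [e1, av_add, av_add, av_add, av_add, av_add, av_mul, av_mul, av_mul,
    av_const (by omega), av_mul_lin M h hb (cf b M h) hs, mom2 (by omega) (by omega),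
    mom1 (by omega) (by omega), hs, ← hq]
  unfold lv A2
  have e2 : ∑ j ∈ M, cf b M h j * cf b M h j = ∑ j ∈ M, cf b M h j ^ 2 :=
    Finset.sum_congr rfl fun j _ => (sq _).symm
  rw [e2]
  push_cast
  field_simp
  ring

end Pool.Agent.MMSA
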