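import Pool.Agent.MMSA.Mix2

/-!
Inequality (B): the spectral gap between level one and level two (Latala-Oleszkiewicz on the slice).

PLAN. `K = k + 1`, `n = |V|`, `f S = ∑ i ∈ S, x i`, `s2 = av K V (f^2)`, `F = |f|`. For a
`k`-subset `R` and the `n - k` elements `y ∉ R` the variance over `y` of `F (insert y R)` is at
most the variance of `f (insert y R)` (it is half the average of the squared differences, and
`| |u| - |v| | ≤ |u - v|`). Averaging over `R`:
`av K (F^2) - av k ((D F)^2) ≤ av K (f^2) - av k ((D f)^2)` with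
`D h R = (∑ y ∈ V \ R, h (insert y R)) / (n - k)`, hence `av k ((D f)^2) ≤ av k ((D F)^2)` since
`F^2 = f^2`. Here `D f R = ((n-k-1)/(n-k)) f R`, so
`av k ((D f)^2) = (k (n-k-1) / ((k+1)(n-k))) s2`. Use `down2` for `F`. With
`l1 = k (n-k-1)/((k+1)(n-k))`, `l2 = (k-1)(n-k-2)/((k+1)(n-k))`:
`l1 s2 ≤ m^2 + l1 lv + l2 (s2 - m^2 - lv)`, and `l1 - l2 = (n-2)/((k+1)(n-k))`,
`1 - l2 = 2(n-1)/((k+1)(n-k))`.
-/

set_option autoImplicit false
set_option linter.unusedSectionVars false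

namespace Pool.Agent.MMSA

open Finset Pool.Agent.H59.MMS

variable {α : Type*} [DecidableEq α]

/-- The absolute value of the sum. -/
noncomputable def ab (x : α → ℝ) (S : Finset α) : ℝ := |∑ i ∈ S, x i|

/-- (B) -/
theorem ineqB {k : ℕ} (V : Finset α) (x : α → ℝ) (hk : k + 2 ≤ V.card) (hx : ∑ j ∈ V, x j = 0) :
    ((V.card : ℝ) - 2) * (av (k + 1) V (fun S => (∑ i ∈ S, x i) ^ 2) - lv k V (ab x)) ≤
      2 * ((V.card : ℝ) - 1) * (av (k + 1) V (ab x)) ^ 2 := by
  have hn : (k : ℝ) + 2 ≤ V.card := by exact_mod_cast hk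
  have hk0 : (0 : ℝ) ≤ k := Nat.cast_nonneg k
  have hc : (0 : ℝ) < (V.card : ℝ) - k := by linarith
  have hd := down2 V (ab x) hk
  -- the averages of the sums over supersets
  have h1 : av k V (fun R => ((((V.card : ℝ) - k - 1) / ((V.card : ℝ) - k)) ^ 2) *
      (∑ i ∈ R, x i) ^ 2) ≤
      av k V (fun R => ((∑ y ∈ V \ R, ab x (insert y R)) / ((V.card : ℝ) - k)) ^ 2) := by
    refine av_mono fun R hRV hRc => ?_
    have hcard : (((V \ R).card : ℕ) : ℝ) = (V.card : ℝ) - k := by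
      rw [Finset.card_sdiff_of_subset hRV, hRc, Nat.cast_sub (by omega)]
    have h2 : ∑ y ∈ V \ R, ∑ i ∈ insert y R, x i = ((V.card : ℝ) - k - 1) * ∑ i ∈ R, x i := by
      have h3 : ∀ y ∈ V \ R, ∑ i ∈ insert y R, x i = x y + ∑ i ∈ R, x i := fun y hy =>
        Finset.sum_insert (Finset.mem_sdiff.1 hy).2
      have h4 : ∑ y ∈ V \ R, x y = -∑ i ∈ R, x i := by
        have h5 := Finset.sum_sdiff (f := x) hRV
        rw [hx] at h5
        linarith
      rw [Finset.sum_congr rfl h3, Finset.sum_add_distrib, h4, Finset.sum_const, nsmul_eq_mul,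
        hcard]
      ring
    have h3 : |((V.card : ℝ) - k - 1) * ∑ i ∈ R, x i| ≤ ∑ y ∈ V \ R, ab x (insert y R) := by
      rw [← h2]
      exact Finset.abs_sum_le_sum_abs _ _
    rw [← mul_pow, div_mul_eq_mul_div, div_pow, div_pow]
    refine div_le_div_of_nonneg_right ?_ (by positivity)
    rw [← sq_abs]
    exact pow_le_pow_left₀ (abs_nonneg _) h3 2
  rw [av_mul] at h1
  have hn0 : (V.card : ℝ) ≠ 0 := by linarith
  have hn1 : (V.card : ℝ) - 1 ≠ 0 := by linarith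
  have m1 := mom2 (k := k) (V := V) (by omega) (by omega) x
  have m2 := mom2 (k := k + 1) (V := V) (by omega) (by omega) x
  rw [hx] at m1 m2
  push_cast at m2
  have hF : av (k + 1) V (fun T => ab x T ^ 2) = av (k + 1) V (fun S => (∑ i ∈ S, x i) ^ 2) :=
    av_congr fun S _ _ => by rw [ab, sq_abs]
  rw [hF] at hd
  have h2 := h1.trans hd
  set s2 := av (k + 1) V (fun S => (∑ i ∈ S, x i) ^ 2) with hs2
  set m := av (k + 1) V (ab x) with hm
  set l := lv k V (ab x) with hl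
  have h3 : ((((V.card : ℝ) - k - 1) / ((V.card : ℝ) - k)) ^ 2) *
      av k V (fun R => (∑ i ∈ R, x i) ^ 2) =
      ((k : ℝ) * ((V.card : ℝ) - k - 1) / ((k + 1) * ((V.card : ℝ) - k))) * s2 := by
    rw [m1, m2]
    field_simp
    ring
  rw [h3] at h2
  have hpos : (0 : ℝ) < (k + 1) * ((V.card : ℝ) - k) := by positivity
  have h4 := mul_le_mul_of_nonneg_left h2 hpos.le
  have e1 : ((k : ℝ) + 1) * ((V.card : ℝ) - k) *
      (((k : ℝ) * ((V.card : ℝ) - k - 1) / ((k + 1) * ((V.card : ℝ) - k))) * s2) =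
      (k : ℝ) * ((V.card : ℝ) - k - 1) * s2 := by
    field_simp
  have e2 : ((k : ℝ) + 1) * ((V.card : ℝ) - k) * (m ^ 2 +
      ((k : ℝ) * ((V.card : ℝ) - k - 1) / ((k + 1) * ((V.card : ℝ) - k))) * l +
      (((k : ℝ) - 1) * ((V.card : ℝ) - k - 2) / ((k + 1) * ((V.card : ℝ) - k))) *
        (s2 - m ^ 2 - l)) = ((k : ℝ) + 1) * ((V.card : ℝ) - k) * m ^ 2 +
      (k : ℝ) * ((V.card : ℝ) - k - 1) * l +
      ((k : ℝ) - 1) * ((V.card : ℝ) - k - 2) * (s2 - m ^ 2 - l) := by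
    field_simp
  rw [e1, e2] at h4
  nlinarith

end Pool.Agent.MMSA
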