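import Pool.Agent.MMSA.Mix2

/-!
Stage A: the mixing inequality for the bad sets through `i` with the level-one weight.

PLAN. Copy `mix_ineq` of H59.MMS.Cases, replacing `mixing` by `mixing2` (`a = k`, `b + 1 = k + 1`,
`M = V.erase i`, `|M| = |V| - 1`, `nn_sq`).
-/

set_option autoImplicit false
set_option linter.unusedSectionVars false

namespace Pool.Agent.MMSA

open Finset Pool.Agent.H59.MMS

variable {α : Type*} [DecidableEq α]

/-- The mixing inequality for the bad sets through `i`, with the level-one weight of the good sets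
avoiding `i`. -/
theorem mix_ineq2 {k : ℕ} {V : Finset α} {i : α} (hi : i ∈ V) (hk : 1 ≤ k)
    (hn : 2 * (k + 1) ≤ V.card) (hn4 : k + 4 ≤ V.card)
    {ℓ : ℝ} (hLB : LB α (k + 1) (V.card - (k + 1)) ℓ) (x : α → ℝ) (hx : ∑ j ∈ V, x j = 0)
    (hw : 0 < av k (V.erase i) (bad x i))
    (hr : av (k + 1) (V.erase i) (nn x) ≤ ℓ) :
    av k (V.erase i) (bad x i) * (ℓ - av (k + 1) (V.erase i) (nn x)) ^ 2 ≤
      (1 - av k (V.erase i) (bad x i)) *
      (rho1 k (k + 1) ((V.card : ℝ) - 1) * lv k (V.erase i) (nn x) +
        rho2 k (k + 1) ((V.card : ℝ) - 1) *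
        (av (k + 1) (V.erase i) (nn x) * (1 - av (k + 1) (V.erase i) (nn x)) -
          lv k (V.erase i) (nn x))) := by
  set M := V.erase i with hM
  have hMc : M.card = V.card - 1 := by rw [hM, Finset.card_erase_of_mem hi]
  have hMr : (M.card : ℝ) = V.card - 1 := card_erase_cast hi
  set w := av k M (bad x i) with hwdef
  set r := av (k + 1) M (nn x) with hrdef
  set G : Finset α → ℝ := fun S => av (k + 1) (M \ S) (nn x) with hG
  have hGavg : av k M G = r := av_disj (nn x) k M (by omega)
  have h1 : w * ℓ ≤ av k M (fun S => bad x i S * G S) := by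
    rw [hwdef, mul_comm, ← av_mul]
    refine av_mono fun S hS hc => ?_
    by_cases hs : x i + ∑ j ∈ S, x j < 0
    · have : bad x i S = 1 := by simp [bad, hs]
      rw [this, mul_one, one_mul]
      refine hLB (M \ S) x ?_ ?_
      · rw [Finset.card_sdiff_of_subset hS, hc, hMc]; omega
      · have e1 := Finset.sum_sdiff hS (f := x)
        have e2 := sum_erase_one hi x
        linarith
    · have : bad x i S = 0 := by simp [bad, hs]
      rw [this]; simp
  have hcs := av_cs k M (fun S => bad x i S - w) (fun S => G S - r)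
  have hcov : av k M (fun S => (bad x i S - w) * (G S - r)) =
      av k M (fun S => bad x i S * G S) - w * r := by
    have : (fun S => (bad x i S - w) * (G S - r)) = fun S =>
        ((bad x i S * G S - r * bad x i S) - w * G S) + w * r := by
      funext S; ring
    rw [this, av_add, av_sub, av_sub, av_mul, av_mul, av_const (by omega), hGavg, ← hwdef]
    ring
  have hvf : av k M (fun S => (bad x i S - w) ^ 2) = w - w ^ 2 := by
    rw [av_var (by omega)]
    simp only [bad_sq]
    rw [← hwdef]; ring
  have hmix := mixing2 (a := k) (b := k) M (nn x) (by omega) hk (by omega) (by omega)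
  set Q := rho1 k (k + 1) ((V.card : ℝ) - 1) * lv k M (nn x) +
        rho2 k (k + 1) ((V.card : ℝ) - 1) * (r * (1 - r) - lv k M (nn x)) with hQ
  have hvg : av k M (fun S => (G S - r) ^ 2) ≤ Q := by
    simp only [nn_sq] at hmix
    rw [← hrdef, hMr] at hmix
    rw [hQ, show r * (1 - r) = r - r ^ 2 by ring]
    exact hmix
  rw [hcov, hvf] at hcs
  have hw1 : w ≤ 1 := by
    have := av_mono (k := k) (V := M) (F := bad x i) (G := fun _ => (1 : ℝ))
      (fun S _ _ => by unfold bad; split_ifs <;> norm_num)
    rwa [av_const (by omega)] at this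
  have h2 : (w * (ℓ - r)) ^ 2 ≤ (av k M (fun S => bad x i S * G S) - w * r) ^ 2 := by
    refine pow_le_pow_left₀ (mul_nonneg hw.le (by linarith)) ?_ 2
    nlinarith
  have h3 : (w - w ^ 2) * av k M (fun S => (G S - r) ^ 2) ≤ (w - w ^ 2) * Q :=
    mul_le_mul_of_nonneg_left hvg (by nlinarith)
  have h4 := h2.trans (hcs.trans h3)
  have h5 : w * (w * (ℓ - r) ^ 2) ≤ w * ((1 - w) * Q) := by
    nlinarith [h4]
  exact le_of_mul_le_mul_left h5 hw

end Pool.Agent.MMSA
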